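import Pool.Agent.H47.Den.Final

/-! # Factorisation certificates -/

namespace Pool.Agent.H47.Den

open Matrix

variable {F : Type*} [Field F]

/-- The polynomial `f` is the denominator of a factorisation certificate for `rank A < r`:
`f ≠ 0` and `f • A = B * C` for some matrices `B`, `C` of polynomials with inner dimension
`s < r`. -/
def Certifies {σ m k : Type*} [Fintype m] [Fintype k] (A : Matrix m k (MvPolynomial σ F)) (r : ℕ)
    (f : MvPolynomial σ F) : Prop :=
  f ≠ 0 ∧ ∃ s < r, ∃ (B : Matrix m (Fin s) (MvPolynomial σ F))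
    (C : Matrix (Fin s) k (MvPolynomial σ F)), f • A = B * C

/-- The rank of a matrix of polynomials over the field of rational functions. -/
noncomputable def rk {σ m k : Type*} [Fintype k]
    (A : Matrix m k (MvPolynomial σ F)) : ℕ :=
  (A.map (algebraMap (MvPolynomial σ F) (FractionRing (MvPolynomial σ F)))).rank

/-- Factorisation certificates are sound and complete. -/
theorem certifies_iff {σ m k : Type*} [Fintype m] [Fintype k]
    (A : Matrix m k (MvPolynomial σ F)) (r : ℕ) : rk A < r ↔ ∃ f, Certifies A r f := by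
  classical
  let R := MvPolynomial σ F
  let K := FractionRing R
  have hinj : Function.Injective (algebraMap R K) := IsFractionRing.injective R K
  constructor
  · intro hr
    let M : Matrix m k K := A.map (algebraMap R K)
    have hM : M.rank < r := hr
    let b := Module.finBasis K (LinearMap.range M.mulVecLin)
    have hcol : ∀ j, M.mulVecLin (Pi.single j 1) = fun i => M i j := by
      intro j
      ext i
      simp
    let B0 : Matrix m (Fin M.rank) K := fun i t => (b t : m → K) i
    let C0 : Matrix (Fin M.rank) k K := fun t j =>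
      b.repr ⟨M.mulVecLin (Pi.single j 1), LinearMap.mem_range_self _ _⟩ t
    have hBC : M = B0 * C0 := by
      ext i j
      have h1 := b.sum_repr ⟨M.mulVecLin (Pi.single j 1), LinearMap.mem_range_self _ _⟩
      have h2 := congrFun (congrArg (Subtype.val) h1) i
      simp only at h2
      have h3 : M i j = M.mulVecLin (Pi.single j 1) i := (congrFun (hcol j) i).symm
      rw [h3, ← h2, Matrix.mul_apply]
      simp only [AddSubmonoidClass.coe_finsetSum, Submodule.coe_smul, Finset.sum_apply,
        Pi.smul_apply, smul_eq_mul, B0, C0]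
      apply Finset.sum_congr rfl
      intro t _
      rw [mul_comm]
    obtain ⟨β, hβ⟩ := IsLocalization.exist_integer_multiples_of_finite (nonZeroDivisors R)
      (fun x : m × Fin M.rank => B0 x.1 x.2)
    obtain ⟨γ, hγ⟩ := IsLocalization.exist_integer_multiples_of_finite (nonZeroDivisors R)
      (fun x : Fin M.rank × k => C0 x.1 x.2)
    choose B hB using fun x => hβ x
    choose C hC using fun x => hγ x
    refine ⟨(β : R) * γ, ?_, M.rank, hM, Matrix.of fun i t => B (i, t), Matrix.of fun t j => C (t, j),
      ?_⟩
    · exact mul_ne_zero (nonZeroDivisors.ne_zero β.2) (nonZeroDivisors.ne_zero γ.2)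
    · ext1 i j
      apply hinj
      rw [Matrix.smul_apply, smul_eq_mul, map_mul, map_mul, Matrix.mul_apply, map_sum]
      have h3 : algebraMap R K (A i j) = ∑ t, B0 i t * C0 t j := by
        rw [← Matrix.mul_apply, ← hBC]
        rfl
      rw [h3, Finset.mul_sum]
      apply Finset.sum_congr rfl
      intro t _
      rw [Matrix.of_apply, Matrix.of_apply, map_mul, hB, hC, Algebra.smul_def, Algebra.smul_def]
      ring
  · rintro ⟨f, hf, s, hs, B, C, h⟩
    refine lt_of_le_of_lt ?_ hs
    have hf' : algebraMap R K f ≠ 0 := by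
      intro h0
      exact hf (hinj (by rw [h0, map_zero]))
    unfold rk
    have h1 : (algebraMap R K f) • A.map (algebraMap R K) =
        B.map (algebraMap R K) * C.map (algebraMap R K) := by
      rw [← Matrix.map_mul, ← h]
      ext i j
      simp
    rw [← Matrix.rank_smul_of_mem_nonZeroDivisors _ (mem_nonZeroDivisors_of_ne_zero hf'), h1]
    refine (Matrix.rank_mul_le_left _ _).trans ((Matrix.rank_le_card_width _).trans ?_)
    rw [Fintype.card_fin]

/-- The generic alternating matrix of odd order is singular. -/
theorem rk_genAlt_lt {ι : Type*} [LinearOrder ι] [Fintype ι] (hι : Odd (Fintype.card ι)) :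
    rk (genAlt F ι) < Fintype.card ι := by
  classical
  obtain ⟨d, hd⟩ := hι
  let R := MvPolynomial (Var ι) F
  let K := FractionRing R
  let M : Matrix ι ι K := (genAlt F ι).map (algebraMap R K)
  have hM : Alt M := by
    constructor
    · intro x
      simp only [M, Matrix.map_apply]
      rw [genAlt_diag, map_zero]
    · intro x x'
      simp only [M, Matrix.map_apply]
      rw [genAlt_symm, map_neg]
  obtain ⟨pp, qq, hpq⟩ := exists_bivectors d (Finset.univ : Finset ι)
    (by rw [Finset.card_univ, hd]) M (fun i => hM.1 _) (fun i j => hM.2 _ _)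
    (fun i j hi => absurd (Finset.mem_univ i) hi)
  have hP : M = biv pp qq := by
    ext i j
    exact hpq i j
  change M.rank < _
  rw [hP, biv_eq_mul]
  refine lt_of_le_of_lt ((Matrix.rank_mul_le_left _ _).trans (Matrix.rank_le_card_width _)) ?_
  rw [Fintype.card_sum, Fintype.card_fin, hd]
  omega

/-- A nonzero coordinate of a polynomial vector in the kernel of a square matrix is the denominator
of a factorisation certificate. -/
theorem certifies_of_kernel {σ : Type*} {n : ℕ} (A : Matrix (Fin n) (Fin n) (MvPolynomial σ F))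
    (v : Fin n → MvPolynomial σ F) (hv : A *ᵥ v = 0) (j : Fin n) (hj : v j ≠ 0) :
    Certifies A n (v j) := by
  classical
  obtain ⟨s, rfl⟩ : ∃ s, n = s + 1 := ⟨n - 1, by have := j.pos; omega⟩
  refine ⟨hj, s, Nat.lt_succ_self s, Matrix.of fun i t => A i (j.succAbove t),
    Matrix.of fun t l => (if j.succAbove t = l then v j else 0) -
      (if l = j then v (j.succAbove t) else 0), ?_⟩
  ext1 i l
  have h1 := congrFun hv i
  simp only [Matrix.mulVec, dotProduct, Pi.zero_apply] at h1
  rw [Fin.sum_univ_succAbove _ j] at h1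
  rw [Matrix.smul_apply, smul_eq_mul, Matrix.mul_apply]
  simp only [Matrix.of_apply, mul_sub, Finset.sum_sub_distrib, mul_ite, mul_zero]
  by_cases hl : l = j
  · subst hl
    have h2 : ∀ t, ¬ l.succAbove t = l := fun t => Fin.succAbove_ne l t
    simp only [h2, if_false, Finset.sum_const_zero, if_true, zero_sub]
    rw [mul_comm]
    exact eq_neg_of_add_eq_zero_left h1
  · obtain ⟨t, rfl⟩ := Fin.exists_succAbove_eq hl
    simp only [hl, if_false, Finset.sum_const_zero, sub_zero]
    rw [Finset.sum_eq_single t]
    · rw [if_pos rfl, mul_comm]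
    · intro t' _ ht'
      rw [if_neg]
      intro h
      exact ht' (Fin.succAbove_right_injective h)
    · intro h
      exact absurd (Finset.mem_univ t) h

/-- The lower bound. -/
theorem lower_bound [Infinite F] {ι : Type*} [LinearOrder ι] [Fintype ι]
    (hι : Odd (Fintype.card ι)) (h3 : 3 ≤ Fintype.card ι) {L : Type*} [Fintype L]
    (f : L → MvPolynomial (Var ι) F)
    (hf : Certifies (genAlt F ι) (Fintype.card ι) (∏ l, f l)) :
    ∃ l, (∀ k, 4 * k + 1 ≤ Fintype.card ι → 3 ^ k ≤ (f l).support.card) ∧
      ∀ k, 6 * k + 5 ≤ Fintype.card ι →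
        ∀ (N : ℕ) (τ : Fin N ≃ Var ι) (w : ℕ), ROABP τ w (f l) → 2 ^ k ≤ w := by
  classical
  obtain ⟨hf0, s, hs, B, C, h⟩ := hf
  obtain ⟨d, hd⟩ : ∃ d, Fintype.card ι = 2 * d + 3 := by
    obtain ⟨c, hc⟩ := hι
    exact ⟨c - 1, by omega⟩
  have hvan : Van (Fin d) (∏ l, f l) := van_of_factorisation h (by rw [Fintype.card_fin]; exact hs)
    (by rw [Fintype.card_fin]; omega)
  obtain ⟨l, -, hl⟩ := hvan.exists_factor
  have hl0 : f l ≠ 0 := fun h0 => hf0 (Finset.prod_eq_zero (Finset.mem_univ l) h0)
  refine ⟨l, fun k hk => sparse_bound hd (by omega) hl hl0, fun k hk N τ w hw => ?_⟩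
  exact roabp_bound hd (by omega) hl hl0 hw

end Pool.Agent.H47.Den
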