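import Mathlib

/-! # Two small general lemmas

* a finite set in which every point lies on lines with at least `N` points in each of `k` directions
  has at least `N ^ k` points;
* the lowest order part of a polynomial along a curve;
* alternating matrices are sums of bivectors. -/

namespace Pool.Agent.H47.Den

lemma pow_le_card_of_lines {α β B : Type*} [DecidableEq α] [DecidableEq β] [DecidableEq B] [Fintype B]
    {N : ℕ}
    (T : Finset α) (c : B → α → β)
    (h : ∀ m ∈ T, ∀ i, ∃ S ⊆ T, N ≤ S.card ∧ Set.InjOn (c i) S ∧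
      ∀ m' ∈ S, ∀ j, j ≠ i → c j m' = c j m)
    (s : Finset B) : ∀ m ∈ T, N ^ s.card ≤ (T.filter fun m' => ∀ j ∉ s, c j m' = c j m).card := by
  induction s using Finset.induction_on with
  | empty =>
    intro m hm
    rw [Finset.card_empty, pow_zero]
    apply Finset.card_pos.2
    exact ⟨m, Finset.mem_filter.2 ⟨hm, fun _ _ => rfl⟩⟩
  | insert i s hi ih =>
    intro m hm
    obtain ⟨S, hST, hN, hinj, hS⟩ := h m hm i
    rw [Finset.card_insert_of_notMem hi, pow_succ']
    have h1 : S.biUnion (fun m1 => T.filter fun m' => ∀ j ∉ s, c j m' = c j m1) ⊆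
        T.filter fun m' => ∀ j ∉ insert i s, c j m' = c j m := by
      intro x hx
      rw [Finset.mem_biUnion] at hx
      obtain ⟨m1, hm1, hx⟩ := hx
      rw [Finset.mem_filter] at hx ⊢
      refine ⟨hx.1, fun j hj => ?_⟩
      rw [Finset.mem_insert, not_or] at hj
      rw [hx.2 j hj.2]
      exact hS m1 hm1 j hj.1
    refine le_trans ?_ (Finset.card_le_card h1)
    rw [Finset.card_biUnion]
    · calc N * N ^ s.card ≤ S.card * N ^ s.card := Nat.mul_le_mul_right _ hN
        _ = ∑ _m1 ∈ S, N ^ s.card := by rw [Finset.sum_const, smul_eq_mul]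
        _ ≤ _ := Finset.sum_le_sum fun m1 hm1 => ih m1 (hST hm1)
    · intro m1 hm1 m2 hm2 hne
      change Disjoint _ _
      rw [Finset.disjoint_left]
      intro x hx1 hx2
      rw [Finset.mem_filter] at hx1 hx2
      apply hne
      apply hinj hm1 hm2
      rw [← hx1.2 i hi, ← hx2.2 i hi]

open Polynomial in
/-- The lowest order part of `g` along a curve `v ↦ X ^ (w v) * c v`. -/
lemma lowest_part {σ F K : Type*} [Fintype σ] [Field F] [Field K] [Algebra F K]
    (g : MvPolynomial σ F) (w : σ → ℕ) (c : σ → K[X]) (e : ℕ)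
    (he : ∀ m ∈ g.support, e ≤ ∑ v, w v * m v)
    (h : MvPolynomial.aeval (fun v => (X : K[X]) ^ (w v) * c v) g = 0) :
    ∑ m ∈ g.support.filter (fun m => ∑ v, w v * m v = e),
      algebraMap F K (g.coeff m) * ∏ v, (c v).eval 0 ^ m v = 0 := by
  classical
  rw [MvPolynomial.aeval_def, MvPolynomial.eval₂_eq'] at h
  have h1 : ∀ m ∈ g.support, algebraMap F K[X] (g.coeff m) * ∏ v, ((X : K[X]) ^ (w v) * c v) ^ m v =
      X ^ e * (algebraMap F K[X] (g.coeff m) *
        (X ^ ((∑ v, w v * m v) - e) * ∏ v, c v ^ m v)) := by
    intro m hm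
    have h2 : ∏ v, ((X : K[X]) ^ (w v) * c v) ^ m v = X ^ (∑ v, w v * m v) * ∏ v, c v ^ m v := by
      rw [← Finset.prod_pow_eq_pow_sum, ← Finset.prod_mul_distrib]
      apply Finset.prod_congr rfl
      intro v _
      rw [mul_pow, ← pow_mul]
    rw [h2]
    obtain ⟨d, hd⟩ := Nat.exists_eq_add_of_le (he m hm)
    rw [hd, Nat.add_sub_cancel_left, pow_add]
    ring
  rw [Finset.sum_congr rfl h1, ← Finset.mul_sum] at h
  have h2 := (mul_eq_zero.1 h).resolve_left (pow_ne_zero _ Polynomial.X_ne_zero)
  have h3 := congrArg (Polynomial.eval 0) h2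
  rw [Polynomial.eval_finsetSum, Polynomial.eval_zero] at h3
  rw [Finset.sum_filter]
  refine Eq.trans ?_ h3
  apply Finset.sum_congr rfl
  intro m hm
  rw [Polynomial.eval_mul, Polynomial.eval_mul, Polynomial.eval_pow, Polynomial.eval_X,
    Polynomial.eval_prod]
  simp only [Polynomial.eval_pow]
  split_ifs with hc
  · rw [hc, Nat.sub_self, pow_zero, one_mul]
    congr 1
    rw [IsScalarTower.algebraMap_apply F K K[X], Polynomial.algebraMap_eq, Polynomial.eval_C]
  · rw [zero_pow, zero_mul, mul_zero]
    have := he m hm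
    omega

section Bivectors

/-- An alternating matrix supported on a set of size at most `2 d + 1` is a sum of `d` bivectors. -/
lemma exists_bivectors {ι K : Type*} [DecidableEq ι] [Field K] (d : ℕ) :
    ∀ (s : Finset ι), s.card ≤ 2 * d + 1 → ∀ (T : Matrix ι ι K), (∀ i, T i i = 0) →
      (∀ i j, T j i = -T i j) → (∀ i j, i ∉ s → T i j = 0) →
      ∃ p q : Fin d → ι → K, ∀ i j, T i j = ∑ l, (p l i * q l j - q l i * p l j) := by
  induction d with
  | zero =>
    intro s hs T h1 h2 h3
    refine ⟨fun _ _ => 0, fun _ _ => 0, fun i j => ?_⟩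
    rw [Finset.univ_eq_empty, Finset.sum_empty]
    by_cases hi : i ∈ s
    · by_cases hj : j ∈ s
      · have : i = j := Finset.card_le_one.1 (by omega) i hi j hj
        rw [this, h1]
      · rw [h2, h3 j i hj, neg_zero]
    · exact h3 i j hi
  | succ d ih =>
    intro s hs T h1 h2 h3
    by_cases hT : ∀ i j, T i j = 0
    · refine ⟨fun _ _ => 0, fun _ _ => 0, fun i j => ?_⟩
      rw [hT]
      simp
    · push Not at hT
      obtain ⟨u, v, huv⟩ := hT
      have hu : u ∈ s := by
        by_contra hu
        exact huv (h3 u v hu)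
      have hv : v ∈ s := by
        by_contra hv
        exact huv (by rw [h2, h3 v u hv, neg_zero])
      have hne : u ≠ v := by
        rintro rfl
        exact huv (h1 u)
      have hvu : T v u = -T u v := h2 u v
      let T' : Matrix ι ι K := fun i j => T i j - (T u i * T v j - T v i * T u j) / T u v
      obtain ⟨p, q, hpq⟩ := ih ((s.erase u).erase v) (by
        rw [Finset.card_erase_of_mem (Finset.mem_erase.2 ⟨hne.symm, hv⟩),
          Finset.card_erase_of_mem hu]
        omega) T' (by
          intro i
          simp only [T', h1]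
          ring) (by
          intro i j
          simp only [T', h2 i j]
          ring) (by
          intro i j hi
          by_cases hi1 : i = u
          · subst hi1
            simp only [T', h1, hvu]
            field_simp
            ring
          by_cases hi2 : i = v
          · subst hi2
            simp only [T', h1]
            field_simp
            ring
          · have hi3 : i ∉ s := fun h => hi (Finset.mem_erase.2 ⟨hi2, Finset.mem_erase.2 ⟨hi1, h⟩⟩)
            simp only [T', h3 i j hi3]
            rw [h2 i u, h2 i v, h3 i u hi3, h3 i v hi3]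
            ring)
      refine ⟨Fin.cons (fun i => T u i / T u v) p, Fin.cons (fun i => T v i) q, fun i j => ?_⟩
      rw [Fin.sum_univ_succ]
      simp only [Fin.cons_zero, Fin.cons_succ]
      rw [← hpq]
      simp only [T']
      field_simp
      ring

end Bivectors

end Pool.Agent.H47.Den
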