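import Pool.Agent.H47.Den.Vanish
import Pool.Agent.H47.Den.Comb

/-! # The curve of matrices used to isolate one block -/

namespace Pool.Agent.H47.Den

open Matrix

variable {B : Type*} [Fintype B] [DecidableEq B] {h : B → ℕ}

/-- The index set: a block of `2 * h j` indices for every `j : B`, and one extra index. -/
abbrev J (h : B → ℕ) : Type _ := Option (Σ j : B, Fin (h j) ⊕ Fin (h j))

/-- `x` lies in block `b` or is the extra index. -/
def inb (b : B) : J h → Bool
  | none => true
  | some y => decide (y.1 = b)

/-- `x` and `y` lie in two different blocks. -/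
def cr : J h → J h → Bool
  | some x, some y => decide (x.1 ≠ y.1)
  | _, _ => false

omit [Fintype B] in
lemma cr_symm (x y : J h) : cr x y = cr y x := by
  rcases x with _ | x <;> rcases y with _ | y <;> simp [cr, eq_comm]

omit [Fintype B] in
lemma not_cr_of_inb {b : B} {x y : J h} (hx : inb b x = true) (hy : inb b y = true) :
    cr x y = false := by
  rcases x with _ | x <;> rcases y with _ | y <;> simp [cr, inb] at *
  rw [hx, hy]

lemma card_inb (b : B) : (Finset.univ.filter fun x : J h => inb b x = true).card ≤ 2 * h b + 1 := by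
  have h1 : (Finset.univ.filter fun x : J h => inb b x = true) ⊆
      insert none (Finset.univ.image fun t : Fin (h b) ⊕ Fin (h b) => some ⟨b, t⟩) := by
    intro x hx
    rw [Finset.mem_filter] at hx
    rcases x with _ | ⟨a, t⟩
    · exact Finset.mem_insert_self _ _
    · have h1 : a = b := by simpa [inb] using hx.2
      subst h1
      exact Finset.mem_insert_of_mem (Finset.mem_image.2 ⟨t, Finset.mem_univ _, rfl⟩)
  refine (Finset.card_le_card h1).trans ((Finset.card_insert_le _ _).trans ?_)
  have := Finset.card_image_le (s := (Finset.univ : Finset (Fin (h b) ⊕ Fin (h b))))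
    (f := fun t : Fin (h b) ⊕ Fin (h b) => (some ⟨b, t⟩ : J h))
  rw [Finset.card_univ, Fintype.card_sum, Fintype.card_fin] at this
  omega

variable {K : Type*} [Field K]

/-- The starting matrix: `G` without its cross blocks, block `b` replaced by `Z`. -/
def A0 (G : Matrix (J h) (J h) K) (b : B) (Z : Matrix (J h) (J h) K) : Matrix (J h) (J h) K :=
  fun x y => if inb b x = true ∧ inb b y = true then Z x y
    else if cr x y = true then 0 else G x y

omit [Fintype B] in
lemma A0_alt {G : Matrix (J h) (J h) K} (hG : Alt G) (b : B) {Z : Matrix (J h) (J h) K}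
    (hZ : Alt Z) : Alt (A0 G b Z) := by
  constructor
  · intro x
    unfold A0
    split_ifs
    · exact hZ.1 x
    · rfl
    · exact hG.1 x
  · intro x y
    unfold A0
    rw [cr_symm y x]
    by_cases h : inb b x = true ∧ inb b y = true
    · rw [if_pos h, if_pos h.symm]
      exact hZ.2 x y
    · rw [if_neg h, if_neg (fun h' => h h'.symm)]
      split_ifs
      · ring
      · exact hG.2 x y

lemma A0_eq_biv {G : Matrix (J h) (J h) K} (hG : Alt G) (b : B) {κ : Type*} [Fintype κ]
    (zp zq : κ → J h → K) :
    ∃ p q : ((Σ j : {j : B // j ≠ b}, Fin (h j.1)) ⊕ κ) → J h → K,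
      A0 G b (biv zp zq) = biv p q := by
  classical
  have h1 : ∀ j : B, ∃ p q : Fin (h j) → J h → K, ∀ x y,
      (if inb j x = true ∧ inb j y = true then G x y else 0) =
        ∑ l, (p l x * q l y - q l x * p l y) := by
    intro j
    apply exists_bivectors (h j) (Finset.univ.filter fun x : J h => inb j x = true)
    · exact card_inb j
    · intro x
      split_ifs
      · exact hG.1 x
      · rfl
    · intro x y
      by_cases h : inb j x = true ∧ inb j y = true
      · rw [if_pos h, if_pos h.symm]
        exact hG.2 x y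
      · rw [if_neg h, if_neg (fun h' => h h'.symm)]
        exact neg_zero.symm
    · intro x y hx
      rw [Finset.mem_filter] at hx
      rw [if_neg]
      intro h
      exact hx ⟨Finset.mem_univ _, h.1⟩
  choose p q hpq using h1
  refine ⟨fun o => match o with
      | Sum.inr l => fun x => if inb b x = true then zp l x else 0
      | Sum.inl jl => p jl.1.1 jl.2,
    fun o => match o with
      | Sum.inr l => fun x => if inb b x = true then zq l x else 0
      | Sum.inl jl => q jl.1.1 jl.2, ?_⟩
  ext x y
  have hbiv : ∀ (κ' : Type _) [Fintype κ'] (p q : κ' → J h → K), biv p q x y =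
      ∑ l, (p l x * q l y - q l x * p l y) := fun _ _ _ _ => rfl
  rw [hbiv, Fintype.sum_sum_type, Fintype.sum_sigma]
  simp only
  have h2 : ∀ j : {j : B // j ≠ b}, ∑ l : Fin (h j.1), (p j.1 l x * q j.1 l y -
      q j.1 l x * p j.1 l y) =
      if inb j.1 x = true ∧ inb j.1 y = true then G x y else 0 := fun j => (hpq j.1 x y).symm
  rw [Finset.sum_congr rfl fun j _ => h2 j]
  have h3 : ∑ l, ((if inb b x = true then zp l x else 0) * (if inb b y = true then zq l y else 0) -
      (if inb b x = true then zq l x else 0) * (if inb b y = true then zp l y else 0)) =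
      if inb b x = true ∧ inb b y = true then biv zp zq x y else 0 := by
    by_cases hx : inb b x = true <;> by_cases hy : inb b y = true <;> simp [hx, hy, biv]
  rw [h3]
  unfold A0
  rcases x with _ | ⟨a, s⟩ <;> rcases y with _ | ⟨c, t⟩
  · simp [inb, hG.1]
  · by_cases hc : c = b
    · subst hc
      have : ∀ j : {j : B // j ≠ c}, ¬ (c = j.1) := fun j h => j.2 h.symm
      simp [inb, this]
    · simp only [inb, cr, hc, true_and, if_false, decide_false,
        decide_eq_true_eq, Bool.false_eq_true, add_zero]
      rw [Finset.sum_eq_single ⟨c, hc⟩]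
      · simp
      · intro j _ hj
        rw [if_neg]
        intro h
        exact hj (Subtype.ext h.symm)
      · intro h
        exact absurd (Finset.mem_univ _) h
  · by_cases ha : a = b
    · subst ha
      have : ∀ j : {j : B // j ≠ a}, ¬ (a = j.1) := fun j h => j.2 h.symm
      simp [inb, this]
    · simp only [inb, cr, ha, and_true, if_false, decide_false,
        decide_eq_true_eq, Bool.false_eq_true, add_zero]
      rw [Finset.sum_eq_single ⟨a, ha⟩]
      · simp
      · intro j _ hj
        rw [if_neg]
        intro h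
        exact hj (Subtype.ext h.symm)
      · intro h
        exact absurd (Finset.mem_univ _) h
  · simp only [inb, cr, decide_eq_true_eq]
    by_cases hac : a = c
    · subst hac
      by_cases ha : a = b
      · subst ha
        have : ∀ j : {j : B // j ≠ a}, ¬ (a = j.1) := fun j h => j.2 h.symm
        simp [this]
      · simp only [ha, and_self, if_false, ne_eq, not_true_eq_false, add_zero]
        rw [Finset.sum_eq_single ⟨a, ha⟩]
        · simp
        · intro j _ hj
          rw [if_neg]
          intro h
          exact hj (Subtype.ext h.symm)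
        · intro h
          exact absurd (Finset.mem_univ _) h
    · have h3 : ∀ j : B, ¬ (a = j ∧ c = j) := fun j h => hac (h.1.trans h.2.symm)
      simp only [h3, if_false, Finset.sum_const_zero, ne_eq, hac, not_false_eq_true, if_true,
        add_zero]

/-- An injective numbering of the blocks. -/
noncomputable def num (j : B) : ℕ := (Fintype.equivFin B j).val

omit [DecidableEq B] in
lemma num_inj {i j : B} (hij : num i = num j) : i = j :=
  (Fintype.equivFin B).injective (Fin.ext hij)

/-- Diagonal block. -/
def blk (G : Matrix (J h) (J h) K) (a : B) :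
    Matrix (Fin (h a) ⊕ Fin (h a)) (Fin (h a) ⊕ Fin (h a)) K :=
  Matrix.of fun s t => G (some ⟨a, s⟩) (some ⟨a, t⟩)

/-- The matrix of the first order deformation. -/
noncomputable def HH (G : Matrix (J h) (J h) K) (b : B) : Matrix (J h) (J h) K :=
  fun x y => match x, y with
    | some x, some y => if x.1 ≠ b ∧ (y.1 = b ∨ num x.1 < num y.1) then
        ∑ w, (blk G x.1)⁻¹ x.2 w * G (some ⟨x.1, w⟩) (some y) else 0
    | _, _ => 0

lemma A0_mul_HH {G : Matrix (J h) (J h) K} (b : B) (Z : Matrix (J h) (J h) K)
    (hdet : ∀ a : B, (blk G a).det ≠ 0)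
    (x y : Σ j : B, Fin (h j) ⊕ Fin (h j)) (hxy : x.1 ≠ y.1) :
    (A0 G b Z * HH G b) (some x) (some y) =
      if x.1 ≠ b ∧ (y.1 = b ∨ num x.1 < num y.1) then G (some x) (some y) else 0 := by
  classical
  obtain ⟨a, s⟩ := x
  obtain ⟨c, t⟩ := y
  simp only at hxy
  rw [Matrix.mul_apply, Fintype.sum_option, Fintype.sum_sigma]
  have h0 : HH G b none (some ⟨c, t⟩) = 0 := rfl
  rw [h0, mul_zero, zero_add, Finset.sum_eq_single a]
  · by_cases hC : a ≠ b ∧ (c = b ∨ num a < num c)
    · have h1 : ∀ u, A0 G b Z (some ⟨a, s⟩) (some ⟨a, u⟩) = blk G a s u := by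
        intro u
        simp [A0, inb, cr, hC.1, blk]
      have h2 : ∀ u, HH G b (some ⟨a, u⟩) (some ⟨c, t⟩) =
          ((blk G a)⁻¹ *
            (Matrix.of fun w (_ : Unit) => G (some ⟨a, w⟩) (some ⟨c, t⟩))) u () := by
        intro u
        simp only [HH]
        rw [if_pos hC, Matrix.mul_apply]
        rfl
      rw [Finset.sum_congr rfl fun u _ => by rw [h1 u, h2 u], ← Matrix.mul_apply,
        ← Matrix.mul_assoc, Matrix.mul_nonsing_inv _ (isUnit_iff_ne_zero.2 (hdet a)),
        Matrix.one_mul, if_pos hC]
      rfl
    · rw [if_neg hC]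
      apply Finset.sum_eq_zero
      intro u _
      have h2 : HH G b (some ⟨a, u⟩) (some ⟨c, t⟩) = 0 := by
        simp only [HH]
        rw [if_neg hC]
      rw [h2, mul_zero]
  · intro c' _ hc'
    apply Finset.sum_eq_zero
    intro u _
    have h1 : A0 G b Z (some ⟨a, s⟩) (some ⟨c', u⟩) = 0 := by
      simp only [A0, inb, cr, decide_eq_true_eq]
      rw [if_neg, if_pos]
      · exact fun h => hc' h.symm
      · rintro ⟨h1, h2⟩
        exact hc' (h2.trans h1.symm)
    rw [h1, zero_mul]
  · intro h
    exact absurd (Finset.mem_univ _) h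

lemma first_cross {G : Matrix (J h) (J h) K} (hG : Alt G) (b : B) {Z : Matrix (J h) (J h) K}
    (hZ : Alt Z) (hdet : ∀ a : B, (blk G a).det ≠ 0) (x y : J h) (hxy : cr x y = true) :
    ((HH G b)ᵀ * A0 G b Z + A0 G b Z * HH G b) x y = G x y := by
  have h1 : ((HH G b)ᵀ * A0 G b Z) x y = -(A0 G b Z * HH G b) y x := by
    rw [Matrix.mul_apply, Matrix.mul_apply, ← Finset.sum_neg_distrib]
    apply Finset.sum_congr rfl
    intro r _
    rw [Matrix.transpose_apply, (A0_alt hG b hZ).2 y r]
    ring
  rw [Matrix.add_apply, h1]
  rcases x with _ | x <;> rcases y with _ | y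
  · simp [cr] at hxy
  · simp [cr] at hxy
  · simp [cr] at hxy
  · have hne : x.1 ≠ y.1 := by simpa [cr] using hxy
    rw [A0_mul_HH b Z hdet x y hne, A0_mul_HH b Z hdet y x hne.symm]
    by_cases hx : x.1 = b
    · have hy : y.1 ≠ b := fun h => hne (hx.trans h.symm)
      rw [if_pos ⟨hy, Or.inl hx⟩, if_neg (fun h => h.1 hx), hG.2 (some x) (some y)]
      ring
    · by_cases hy : y.1 = b
      · rw [if_neg (fun h => h.1 hy), if_pos ⟨hx, Or.inl hy⟩]
        ring
      · have hne' : num x.1 ≠ num y.1 := fun h => hne (num_inj h)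
        rcases lt_or_gt_of_ne hne' with h | h
        · rw [if_neg, if_pos ⟨hx, Or.inr h⟩]
          · ring
          · rintro ⟨_, h2 | h2⟩
            · exact hx h2
            · exact lt_asymm h h2
        · rw [if_pos ⟨hy, Or.inr h⟩, if_neg]
          · rw [hG.2 (some x) (some y)]
            ring
          · rintro ⟨_, h2 | h2⟩
            · exact hy h2
            · exact lt_asymm h h2

end Pool.Agent.H47.Den
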