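import Pool.Agent.H47.Den.Vanish
import Pool.Agent.H47.Den.Comb

/-! # At least three monomials on every line -/

namespace Pool.Agent.H47.Den

open Polynomial

variable {F : Type*} [Field F] {ι : Type*} [LinearOrder ι] [Fintype ι]

lemma three_le [Infinite F] (L : Finset (Var ι →₀ ℕ)) (a : (Var ι →₀ ℕ) → F) (hL : L.Nonempty)
    (ha : ∀ m ∈ L, a m ≠ 0) (In : Var ι → Prop) [DecidablePred In]
    (hin : ∀ m ∈ L, ∀ m' ∈ L, (∀ v, In v → m v = m' v) → m = m')
    (hz : ∀ q : ι → F, ∑ m ∈ L, a m * ∏ v, (if In v then q v.1.2 - q v.1.1 else 1) ^ m v = 0) :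
    3 ≤ L.card := by
  classical
  obtain ⟨χ⟩ : Nonempty (ι ↪ F) :=
    ⟨(Fintype.equivFin ι).toEmbedding.trans (Fin.valEmbedding.trans (Infinite.natEmbedding F))⟩
  by_contra hcon
  have hpos := Finset.card_pos.2 hL
  have hcase : L.card = 1 ∨ L.card = 2 := by omega
  rcases hcase with h1 | h2
  · obtain ⟨m, hm⟩ := Finset.card_eq_one.1 h1
    have h3 := hz χ
    rw [hm, Finset.sum_singleton, mul_eq_zero, Finset.prod_eq_zero_iff] at h3
    rcases h3 with h3 | ⟨v, _, h3⟩
    · exact ha m (by rw [hm]; exact Finset.mem_singleton_self m) h3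
    · have h4 := eq_zero_of_pow_eq_zero h3
      split_ifs at h4
      · rw [sub_eq_zero] at h4
        exact absurd (χ.injective h4) v.2.ne'
      · exact one_ne_zero h4
  · obtain ⟨m0, m1, hne, hm⟩ := Finset.card_eq_two.1 h2
    -- it is enough to treat one order
    have main : ∀ m0 m1 : Var ι →₀ ℕ, L = {m0, m1} → m0 ≠ m1 → ∀ v0 : Var ι, In v0 →
        m0 v0 < m1 v0 → False := by
      intro m0 m1 hm hne v0 hv0 hlt
      let qP : ι → F[X] := fun x => if x = v0.1.2 then C (χ v0.1.1) + X else C (χ x)
      let P : Var ι → F[X] := fun v => if In v then qP v.1.2 - qP v.1.1 else 1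
      have hP0 : P v0 = X := by
        simp only [P, if_pos hv0, qP, if_neg v0.2.ne, if_true]
        ring
      have hP : ∀ v, v ≠ v0 → (P v).eval 0 ≠ 0 := by
        intro v hv
        simp only [P]
        split_ifs with hvin
        · simp only [qP, eval_sub]
          intro h
          split_ifs at h with h3 h4 h4
          · exact absurd (h4.trans h3.symm) v.2.ne
          · rw [eval_add, eval_C, eval_X, add_zero, eval_C, sub_eq_zero] at h
            have h5 := χ.injective h
            apply hv
            apply Subtype.ext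
            exact Prod.ext h5.symm h3
          · rw [eval_add, eval_C, eval_X, add_zero, eval_C, sub_eq_zero] at h
            have h5 := χ.injective h
            have h6 := v.2
            rw [h4, h5] at h6
            exact absurd h6 (not_lt.2 v0.2.le)
          · rw [eval_C, eval_C, sub_eq_zero] at h
            exact absurd (χ.injective h) v.2.ne'
        · rw [eval_one]
          exact one_ne_zero
      have hpoly : C (a m0) * ∏ v, P v ^ m0 v + C (a m1) * ∏ v, P v ^ m1 v = 0 := by
        apply Polynomial.funext
        intro ε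
        have h3 := hz (fun x => (qP x).eval ε)
        rw [hm, Finset.sum_pair hne] at h3
        rw [eval_zero, eval_add, eval_mul, eval_mul, eval_C, eval_C, eval_prod, eval_prod]
        have h4 : ∀ m : Var ι →₀ ℕ, ∏ v, (P v ^ m v).eval ε =
            ∏ v, (if In v then (qP v.1.2).eval ε - (qP v.1.1).eval ε else 1) ^ m v := by
          intro m
          apply Finset.prod_congr rfl
          intro v _
          rw [eval_pow]
          congr 1
          simp only [P]
          split_ifs
          · rw [eval_sub]
          · rw [eval_one]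
        rw [h4, h4]
        exact h3
      have h5 : ∀ m : Var ι →₀ ℕ, ∏ v, P v ^ m v =
          X ^ m v0 * ∏ v ∈ Finset.univ.erase v0, P v ^ m v := by
        intro m
        rw [← Finset.mul_prod_erase _ _ (Finset.mem_univ v0), hP0]
      obtain ⟨d, hd⟩ := Nat.exists_eq_add_of_lt hlt
      rw [h5, h5, hd] at hpoly
      have h6 : (X : F[X]) ^ m0 v0 * (C (a m0) * ∏ v ∈ Finset.univ.erase v0, P v ^ m0 v +
          C (a m1) * (X ^ (d + 1) * ∏ v ∈ Finset.univ.erase v0, P v ^ m1 v)) = 0 := by
        rw [← hpoly]
        ring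
      have h7 := (mul_eq_zero.1 h6).resolve_left (pow_ne_zero _ X_ne_zero)
      have h8 := congrArg (eval 0) h7
      rw [eval_zero, eval_add, eval_mul, eval_mul, eval_mul, eval_pow, eval_X, zero_pow
        (Nat.succ_ne_zero d), zero_mul, mul_zero, add_zero, eval_C, mul_eq_zero, eval_prod,
        Finset.prod_eq_zero_iff] at h8
      rcases h8 with h8 | ⟨v, hv, h8⟩
      · exact ha m0 (by rw [hm]; exact Finset.mem_insert_self _ _) h8
      · rw [eval_pow] at h8
        exact hP v (Finset.ne_of_mem_erase hv) (eq_zero_of_pow_eq_zero h8)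
    have hex : ∃ v, In v ∧ m0 v ≠ m1 v := by
      by_contra h
      push Not at h
      exact hne (hin m0 (by rw [hm]; exact Finset.mem_insert_self _ _) m1
        (by rw [hm]; exact Finset.mem_insert_of_mem (Finset.mem_singleton_self _)) h)
    obtain ⟨v0, hv0, hv1⟩ := hex
    rcases lt_or_gt_of_ne hv1 with h | h
    · exact main m0 m1 hm hne v0 hv0 h
    · exact main m1 m0 (by rw [hm, Finset.pair_comm]) hne.symm v0 hv0 h

end Pool.Agent.H47.Den
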