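import Pool.Agent.H47.Den.Main
import Pool.Agent.H47.Den.Three

/-! # Sparse polynomials -/

namespace Pool.Agent.H47.Den

variable {F : Type*} [Field F] {ι : Type*} [LinearOrder ι] [Fintype ι]
  {B : Type*} [DecidableEq B] {h : B → ℕ}

lemma line_identity {e : ι ≃ J h} {b : B} {G : MvPolynomial (Var ι) F} {n : ℕ} (hn : n = 1)
    (hG : VanP e b (Fin n) G) (q : ι → F) (m0 : Var ι →₀ ℕ) :
    ∑ m ∈ G.support.filter (fun m => ∀ v, ¬ In e b v → m v = m0 v),
      G.coeff m * ∏ v : Var ι, (if In e b v then q v.1.2 - q v.1.1 else 1) ^ m v = 0 := by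
  classical
  subst hn
  have h1 := hG (fun _ _ => 1) (fun _ x => q (e.symm x))
  have h4 := congrArg (MvPolynomial.coeff (m0.filter fun v => ¬ In e b v)) h1
  rw [MvPolynomial.coeff_zero] at h4
  have h2 : ∀ m : Var ι →₀ ℕ, (MvPolynomial.aeval (fun v : Var ι => if In e b v then
      (MvPolynomial.C (biv (fun (_ : Fin 1) (_ : J h) => (1 : F))
        (fun _ x => q (e.symm x)) (e v.1.1) (e v.1.2)) : MvPolynomial (Var ι) F)
      else MvPolynomial.X v)) (MvPolynomial.monomial m (G.coeff m)) =
      (MvPolynomial.monomial (m.filter fun v => ¬ In e b v)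
        (G.coeff m * ∏ v : Var ι, (if In e b v then q v.1.2 - q v.1.1 else 1) ^ m v)) := by
    intro m
    rw [MvPolynomial.aeval_monomial, MvPolynomial.monomial_eq, MvPolynomial.C_mul, mul_assoc]
    congr 1
    rw [map_prod, Finsupp.prod_fintype _ _ (fun v => pow_zero _),
      Finsupp.prod_fintype _ _ (fun v => pow_zero _), ← Finset.prod_mul_distrib]
    apply Finset.prod_congr rfl
    intro v _
    rw [Finsupp.filter_apply]
    by_cases hv : In e b v
    · rw [if_pos hv, if_neg (not_not.2 hv), if_pos hv, pow_zero, mul_one, map_pow]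
      simp [biv]
    · rw [if_neg hv, if_pos hv, if_neg hv, one_pow, map_one, one_mul]
  have h3 : (MvPolynomial.aeval (fun v : Var ι => if In e b v then
      (MvPolynomial.C (biv (fun (_ : Fin 1) (_ : J h) => (1 : F))
        (fun _ x => q (e.symm x)) (e v.1.1) (e v.1.2)) : MvPolynomial (Var ι) F)
      else MvPolynomial.X v)) G = ∑ m ∈ G.support,
      (MvPolynomial.monomial (m.filter fun v => ¬ In e b v)
        (G.coeff m * ∏ v : Var ι, (if In e b v then q v.1.2 - q v.1.1 else 1) ^ m v)) := by
    conv_lhs => rw [G.as_sum]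
    rw [map_sum]
    exact Finset.sum_congr rfl fun m _ => h2 m
  rw [h3, MvPolynomial.coeff_sum] at h4
  rw [Finset.sum_filter]
  refine Eq.trans ?_ h4
  apply Finset.sum_congr rfl
  intro m _
  rw [MvPolynomial.coeff_monomial]
  have h5 : (∀ v, ¬ In e b v → m v = m0 v) ↔
      (m.filter fun v => ¬ In e b v) = (m0.filter fun v => ¬ In e b v) := by
    constructor
    · intro h
      ext v
      rw [Finsupp.filter_apply, Finsupp.filter_apply]
      split_ifs with hv
      · rfl
      · exact h v hv
    · intro h v hv
      have := DFunLike.congr_fun h v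
      rw [Finsupp.filter_apply, Finsupp.filter_apply, if_pos hv, if_pos hv] at this
      exact this
  by_cases h6 : ∀ v, ¬ In e b v → m v = m0 v
  · rw [if_pos h6, if_pos (h5.1 h6)]
  · rw [if_neg h6, if_neg (fun h => h6 (h5.2 h))]

variable [Fintype B]

/-- A nonzero polynomial vanishing at all sums of `n` bivectors, where `n + 1` is half the number of
indices in the blocks, has at least `3 ^ k` monomials if there are `k` blocks of four indices. -/
theorem three_pow_le [Infinite F] {κ : Type*} [Fintype κ] (hκ : Fintype.card κ + 1 = ∑ j, h j)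
    {I : Type*} [Fintype I] [DecidableEq I] (β : I → B) (hβ : Function.Injective β)
    (hh : ∀ j, h (β j) = 2) {g : MvPolynomial (Var ι) F} (hg : Van κ g) (hg0 : g ≠ 0) (e : ι ≃ J h) :
    3 ^ Fintype.card I ≤ g.support.card := by
  classical
  obtain ⟨G, E, hG0, hGs, hGv, -⟩ := exists_low hκ hg hg0 e
  refine le_trans ?_ (Finset.card_le_card hGs)
  obtain ⟨m1, hm1⟩ := MvPolynomial.support_nonempty.2 hG0
  have key := pow_le_card_of_lines (N := 3) G.support (fun i m => m.filter (In e (β i))) (by
    intro m hm i
    refine ⟨G.support.filter (fun m' => ∀ v, ¬ In e (β i) v → m' v = m v),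
      Finset.filter_subset _ _, ?_, ?_, ?_⟩
    · apply three_le (In := In e (β i)) _ (fun m' => G.coeff m')
      · exact ⟨m, Finset.mem_filter.2 ⟨hm, fun _ _ => rfl⟩⟩
      · intro m' hm'
        exact MvPolynomial.mem_support_iff.1 (Finset.mem_filter.1 hm').1
      · intro m' hm' m'' hm'' h
        ext v
        by_cases hv : In e (β i) v
        · exact h v hv
        · rw [(Finset.mem_filter.1 hm').2 v hv, (Finset.mem_filter.1 hm'').2 v hv]
      · intro q
        exact line_identity rfl (hGv (β i) 1 (hh i).symm) q m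
    · intro m' hm' m'' hm'' h
      have hm'2 := (Finset.mem_filter.1 (Finset.mem_coe.1 hm')).2
      have hm''2 := (Finset.mem_filter.1 (Finset.mem_coe.1 hm'')).2
      ext v
      by_cases hv : In e (β i) v
      · have := DFunLike.congr_fun h v
        rw [Finsupp.filter_apply, Finsupp.filter_apply, if_pos hv, if_pos hv] at this
        exact this
      · rw [hm'2 v hv, hm''2 v hv]
    · intro m' hm' j hj
      ext v
      rw [Finsupp.filter_apply, Finsupp.filter_apply]
      split_ifs with hv
      · exact (Finset.mem_filter.1 hm').2 v (In_disjoint e (hβ.ne hj) hv)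
      · rfl) Finset.univ m1 hm1
  rw [Finset.card_univ] at key
  exact key.trans (Finset.card_le_card (Finset.filter_subset _ _))

end Pool.Agent.H47.Den
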