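import Pool.Agent.H47.Den.Robp
import Pool.Agent.H47.Den.Sparse

/-! # Assembly -/

namespace Pool.Agent.H47.Den

open Matrix

variable {F : Type*} [Field F] {ι : Type*} [LinearOrder ι] [Fintype ι]

lemma card_J {B : Type*} [Fintype B] (h : B → ℕ) : Fintype.card (J h) = 2 * (∑ j, h j) + 1 := by
  rw [Fintype.card_option, Fintype.card_sigma, Finset.mul_sum]
  congr 1
  apply Finset.sum_congr rfl
  intro j _
  rw [Fintype.card_sum, Fintype.card_fin]
  omega

/-- Sparse case: a nonzero polynomial vanishing at all sums of `d` bivectors, in an odd dimension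
`2 d + 3`, has at least `3 ^ k` monomials if `4 k + 1 ≤ 2 d + 3`. -/
theorem sparse_bound [Infinite F] {k d : ℕ} (hn : Fintype.card ι = 2 * d + 3)
    (hk : 4 * k + 1 ≤ 2 * d + 3) {g : MvPolynomial (Var ι) F} (hg : Van (Fin d) g) (hg0 : g ≠ 0) :
    3 ^ k ≤ g.support.card := by
  classical
  obtain ⟨r, hr⟩ : ∃ r, d + 1 = 2 * k + r := ⟨d + 1 - 2 * k, by omega⟩
  let h : Option (Fin k) → ℕ := fun o => o.elim r fun _ => 2
  have hsum : ∑ j, h j = 2 * k + r := by
    rw [Fintype.sum_option]
    simp only [h, Option.elim, Finset.sum_const, Finset.card_univ, Fintype.card_fin, smul_eq_mul]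
    omega
  have hcard : Fintype.card ι = Fintype.card (J h) := by
    rw [card_J, hsum, hn]
    omega
  have key := three_pow_le (h := h) (κ := Fin d) (by rw [Fintype.card_fin, hsum, hr])
    (I := Fin k) some (Option.some_injective _) (fun j => rfl) hg hg0 (Fintype.equivOfCardEq hcard)
  rw [Fintype.card_fin] at key
  exact key

/-- Read-once oblivious case. -/
theorem roabp_bound [Infinite F] {k d : ℕ} (hn : Fintype.card ι = 2 * d + 3)
    (hk : 6 * k + 5 ≤ 2 * d + 3) {g : MvPolynomial (Var ι) F} (hg : Van (Fin d) g) (hg0 : g ≠ 0)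
    {N : ℕ} {τ : Fin N ≃ Var ι} {w : ℕ} (hw : ROABP τ w g) : 2 ^ k ≤ w := by
  classical
  obtain ⟨r, hr⟩ : ∃ r, d + 1 = 3 * k + r := ⟨d + 1 - 3 * k, by omega⟩
  let h : Option (Fin k) → ℕ := fun o => o.elim r fun _ => 3
  have hsum : ∑ j, h j = 3 * k + r := by
    rw [Fintype.sum_option]
    simp only [h, Option.elim, Finset.sum_const, Finset.card_univ, Fintype.card_fin, smul_eq_mul]
    omega
  have hcard : Fintype.card (J h) = (Finset.univ : Finset ι).card := by
    rw [card_J, hsum, Finset.card_univ, hn]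
    omega
  obtain ⟨t, c, f, f', hf, hf', hff', hfc, hfc', hred, hblue⟩ := exists_cut τ k (by omega)
  let φ : J h → ι := fun x => match x with
    | none => c
    | some ⟨none, _⟩ => c
    | some ⟨some j, Sum.inl l⟩ => f j l
    | some ⟨some j, Sum.inr l⟩ => f' j l
  let P : J h → Prop := fun x => match x with
    | none => True
    | some ⟨none, _⟩ => False
    | some ⟨some _, _⟩ => True
  obtain ⟨g0, hg1⟩ := Finset.exists_equiv_extend_of_card_eq hcard
    (s := Finset.univ.filter P) (f := φ) (Finset.subset_univ _) (by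
      intro x hx y hy hxy
      have hx' : P x := (Finset.mem_filter.1 (Finset.mem_coe.1 hx)).2
      have hy' : P y := (Finset.mem_filter.1 (Finset.mem_coe.1 hy)).2
      match x, y, hx', hy', hxy with
      | none, none, _, _, _ => rfl
      | none, some ⟨some j, Sum.inl l⟩, _, _, hxy => exact (hfc j l hxy.symm).elim
      | none, some ⟨some j, Sum.inr l⟩, _, _, hxy => exact (hfc' j l hxy.symm).elim
      | some ⟨some j, Sum.inl l⟩, none, _, _, hxy => exact (hfc j l hxy).elim
      | some ⟨some j, Sum.inr l⟩, none, _, _, hxy => exact (hfc' j l hxy).elim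
      | some ⟨some j, Sum.inl l⟩, some ⟨some j', Sum.inl l'⟩, _, _, hxy =>
        obtain ⟨h1, h2⟩ := hf j l j' l' hxy
        subst h1
        subst h2
        rfl
      | some ⟨some j, Sum.inr l⟩, some ⟨some j', Sum.inr l'⟩, _, _, hxy =>
        obtain ⟨h1, h2⟩ := hf' j l j' l' hxy
        subst h1
        subst h2
        rfl
      | some ⟨some j, Sum.inl l⟩, some ⟨some j', Sum.inr l'⟩, _, _, hxy =>
        exact (hff' j l j' l' hxy).elim
      | some ⟨some j, Sum.inr l⟩, some ⟨some j', Sum.inl l'⟩, _, _, hxy =>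
        exact (hff' j' l' j l hxy.symm).elim)
  let e : ι ≃ J h := (g0.trans (Equiv.subtypeUnivEquiv (fun x => Finset.mem_univ x))).symm
  have he : ∀ x : J h, P x → e.symm x = φ x := by
    intro x hx
    exact hg1 x (Finset.mem_filter.2 ⟨Finset.mem_univ _, hx⟩)
  have hsplit : ∀ j : Fin k, Split e (pre τ t) (some j) := by
    intro j
    constructor
    · intro v l l' h1 h2
      have h3 : v.1.1 = f j l := by
        rw [(Equiv.eq_symm_apply e).2 h1]
        exact he _ trivial
      have h4 : v.1.2 = f j l' := by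
        rw [(Equiv.eq_symm_apply e).2 h2]
        exact he _ trivial
      refine mem_of_red (hred j l l' ?_) h3 h4
      rintro rfl
      exact absurd (h3.trans h4.symm) v.2.ne
    · intro v l l' h1 h2 hv
      have h3 : v.1.1 = f' j l := by
        rw [(Equiv.eq_symm_apply e).2 h1]
        exact he _ trivial
      have h4 : v.1.2 = f' j l' := by
        rw [(Equiv.eq_symm_apply e).2 h2]
        exact he _ trivial
      refine hblue j l l' ?_ ⟨v, hv, Or.inl ⟨h3, h4⟩⟩
      rintro rfl
      exact absurd (h3.trans h4.symm) v.2.ne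
  obtain ⟨G, E, hG0, -, hGv, hGt⟩ := exists_low (h := h) (κ := Fin d)
    (by rw [Fintype.card_fin, hsum, hr]) hg hg0 e
  have hbig := bigRank_of_vanE e (pre τ t) (Finset.univ.image (some : Fin k → Option (Fin k)))
    (by
      intro b hb
      obtain ⟨j, -, rfl⟩ := Finset.mem_image.1 hb
      rfl) (by
      intro b hb
      obtain ⟨j, -, rfl⟩ := Finset.mem_image.1 hb
      exact hsplit j) G hG0 (by
      intro b hb
      obtain ⟨j, -, rfl⟩ := Finset.mem_image.1 hb
      intro zp zq y hy
      exact (hGv (some j) 2 rfl).eval zp zq y hy)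
  rw [Finset.card_image_of_injective _ (Option.some_injective _), Finset.card_univ,
    Fintype.card_fin] at hbig
  have hbig' := bigRank_semicont (pre τ t) (wt e) E k hGt hbig
  obtain ⟨A, A', hA⟩ := hw.decomp t
  exact hbig'.le_width A A' hA

end Pool.Agent.H47.Den
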