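import Pool.Agent.H47.Den.Curve
import Pool.Agent.H47.Den.Three

/-! # Polynomials vanishing on sums of `2k-1` bivectors have at least `3^k` monomials -/

namespace Pool.Agent.H47.Den

open Matrix

section general

lemma biv_eq_sub {κ J S : Type*} [Fintype κ] [CommRing S] (p q : κ → J → S) :
    biv p q = (Matrix.of p)ᵀ * Matrix.of q - (Matrix.of q)ᵀ * Matrix.of p := by
  ext i j
  simp only [biv, Matrix.sub_apply, Matrix.mul_apply, Matrix.transpose_apply, Matrix.of_apply]
  rw [← Finset.sum_sub_distrib]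

lemma transpose_mul_biv_mul {κ J S : Type*} [Fintype κ] [Fintype J] [CommRing S] (p q : κ → J → S)
    (M : Matrix J J S) :
    Mᵀ * biv p q * M = biv (fun l => p l ᵥ* M) (fun l => q l ᵥ* M) := by
  have h : ∀ p : κ → J → S, Matrix.of (fun l => p l ᵥ* M) = Matrix.of p * M := fun p => by
    ext l x
    rfl
  rw [biv_eq_sub p q, biv_eq_sub (fun l => p l ᵥ* M) (fun l => q l ᵥ* M), h, h, Matrix.mul_sub,
    Matrix.sub_mul, Matrix.transpose_mul, Matrix.transpose_mul]
  simp only [Matrix.mul_assoc]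

open Polynomial in
/-- The curve `(1 + X H)ᵀ A (1 + X H)`. -/
lemma curve_expand {J K : Type*} [Fintype J] [DecidableEq J] [Field K] (A H : Matrix J J K)
    (x y : J) :
    ((1 + (X : K[X]) • H.map C)ᵀ * A.map C * (1 + (X : K[X]) • H.map C) : Matrix J J K[X]) x y =
      C (A x y) + X * (C ((Hᵀ * A + A * H) x y) + X * C ((Hᵀ * A * H) x y)) := by
  have h1 : (1 + (X : K[X]) • H.map C)ᵀ * A.map C * (1 + (X : K[X]) • H.map C) =
      A.map C + (X : K[X]) • ((Hᵀ * A + A * H).map C + (X : K[X]) • (Hᵀ * A * H).map C) := by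
    have h2 : (Hᵀ * A + A * H).map C = (H.map C)ᵀ * A.map C + A.map C * H.map C := by
      rw [Matrix.map_add _ (fun a b => C_add), Matrix.map_mul, Matrix.map_mul,
        Matrix.transpose_map]
    have h3 : (Hᵀ * A * H).map C = (H.map C)ᵀ * A.map C * H.map C := by
      rw [Matrix.map_mul, Matrix.map_mul, Matrix.transpose_map]
    rw [h2, h3, Matrix.transpose_add, Matrix.transpose_one, Matrix.transpose_smul, Matrix.add_mul,
      Matrix.one_mul, Matrix.mul_add, Matrix.mul_one, Matrix.smul_mul, Matrix.mul_smul,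
      Matrix.add_mul, Matrix.smul_mul]
    simp only [smul_add]
    abel
  rw [h1]
  simp only [Matrix.add_apply, Matrix.smul_apply, Matrix.map_apply, smul_eq_mul]

open Polynomial in
lemma curve_biv {κ J K : Type*} [Fintype κ] [Fintype J] [DecidableEq J] [Field K]
    (p q : κ → J → K) (H : Matrix J J K) : ∃ p' q' : κ → J → K[X],
    (1 + (X : K[X]) • H.map C)ᵀ * (biv p q).map C * (1 + (X : K[X]) • H.map C) = biv p' q' := by
  have h : (biv p q).map C = biv (fun l x => C (p l x)) (fun l x => C (q l x)) :=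
    biv_map (C : K →+* K[X]) p q
  rw [h]
  exact ⟨_, _, transpose_mul_biv_mul _ _ _⟩

variable {F : Type*} [Field F] {ι : Type*} [LinearOrder ι]

lemma Van.ev_biv' {κ κ' : Type*} [Fintype κ] [Fintype κ'] (hc : Fintype.card κ' = Fintype.card κ)
    {g : MvPolynomial (Var ι) F} (h : Van κ g)
    {S : Type*} [CommRing S] [Algebra F S] (p q : κ' → ι → S) : ev F (biv p q) g = 0 := by
  have σ := Fintype.equivOfCardEq hc
  have h1 : biv p q = biv (fun l => p (σ.symm l)) (fun l => q (σ.symm l)) := by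
    ext i j
    simp only [biv]
    exact (σ.symm.sum_comp (fun l => p l i * q l j - q l i * p l j)).symm
  rw [h1]
  exact h.ev_biv _ _

end general

variable {F : Type*} [Field F] {ι : Type*} [LinearOrder ι] [Fintype ι]
  {B : Type*} [Fintype B] [DecidableEq B] {h : B → ℕ}

/-- Weight one for cross variables. -/
def wt (e : ι ≃ J h) (v : Var ι) : ℕ := if cr (e v.1.1) (e v.1.2) = true then 1 else 0

open Polynomial in
lemma block_identity {κ κ' : Type*} [Fintype κ] [Fintype κ'] (hκ : Fintype.card κ + 1 = ∑ j, h j)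
    (b : B) (hκ' : Fintype.card κ' + 1 = h b)
    {g : MvPolynomial (Var ι) F} (hg : Van κ g) (e : ι ≃ J h) (E : ℕ)
    (hE : ∀ m ∈ g.support, E ≤ ∑ v, wt e v * m v)
    {K : Type*} [Field K] [Algebra F K] {G : Matrix (J h) (J h) K} (hG : Alt G)
    (hdet : ∀ a : B, (blk G a).det ≠ 0) (zp zq : κ' → J h → K) :
    ∑ m ∈ g.support.filter (fun m => ∑ v, wt e v * m v = E),
      algebraMap F K (g.coeff m) * ∏ v : Var ι, (if inb b (e v.1.1) = true ∧ inb b (e v.1.2) = true
        then biv zp zq (e v.1.1) (e v.1.2) else G (e v.1.1) (e v.1.2)) ^ m v = 0 := by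
  classical
  obtain ⟨Z, hZdef⟩ : ∃ Z, Z = biv zp zq := ⟨_, rfl⟩
  have hZ : Alt Z := by rw [hZdef]; exact biv_alt zp zq
  obtain ⟨A, hA⟩ : ∃ A, A = A0 G b Z := ⟨_, rfl⟩
  obtain ⟨H, hH⟩ : ∃ H, H = HH G b := ⟨_, rfl⟩
  obtain ⟨p, q, hpq⟩ := A0_eq_biv hG b zp zq
  rw [← hZdef] at hpq ⊢
  rw [← hA] at hpq
  -- matrices over `K[X]`
  obtain ⟨At, hAtdef⟩ : ∃ At : Matrix (J h) (J h) K[X], At =
    (1 + (X : K[X]) • H.map C)ᵀ * A.map C * (1 + (X : K[X]) • H.map C) := ⟨_, rfl⟩
  have hAt : ∀ x y, At x y = C (A x y) + X * (C ((Hᵀ * A + A * H) x y) +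
      X * C ((Hᵀ * A * H) x y)) := by
    intro x y
    rw [hAtdef]
    exact curve_expand A H x y
  obtain ⟨p', q', hAbiv⟩ := curve_biv p q H
  rw [← hpq, ← hAtdef] at hAbiv
  -- evaluation of `g`
  have hcard : Fintype.card ((Σ j : {j : B // j ≠ b}, Fin (h j.1)) ⊕ κ') = Fintype.card κ := by
    rw [Fintype.card_sum, Fintype.card_sigma]
    simp only [Fintype.card_fin]
    have h1 : ∑ j : {j : B // j ≠ b}, h j.1 + h b = ∑ j, h j := by
      rw [← Fintype.sum_subtype_add_sum_subtype (fun j => j ≠ b) h]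
      congr 1
      have : (Finset.univ : Finset {x : B // ¬ x ≠ b}) = {⟨b, not_not.2 rfl⟩} := by
        ext x
        simp only [Finset.mem_univ, Finset.mem_singleton, true_iff]
        exact Subtype.ext (not_not.1 x.2)
      rw [this, Finset.sum_singleton]
    omega
  have hev : ev F (fun i j : ι => At (e i) (e j)) g = 0 := by
    have h1 : (fun i j : ι => At (e i) (e j)) =
        biv (fun l (i : ι) => p' l (e i)) (fun l (i : ι) => q' l (e i)) := by
      ext1 i
      ext1 j
      rw [hAbiv]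
      rfl
    rw [h1]
    exact hg.ev_biv' hcard _ _
  let c : Var ι → K[X] := fun v => if cr (e v.1.1) (e v.1.2) = true
    then C ((Hᵀ * A + A * H) (e v.1.1) (e v.1.2)) + X * C ((Hᵀ * A * H) (e v.1.1) (e v.1.2))
    else At (e v.1.1) (e v.1.2)
  have hc : ∀ v : Var ι, At (e v.1.1) (e v.1.2) = X ^ (wt e v) * c v := by
    intro v
    simp only [wt, c]
    split_ifs with h
    · rw [hAt, pow_one]
      have h1 : A (e v.1.1) (e v.1.2) = 0 := by
        rw [hA]
        unfold A0
        rw [if_neg, if_pos h]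
        rintro ⟨h2, h3⟩
        rw [not_cr_of_inb h2 h3] at h
        exact Bool.noConfusion h
      rw [h1, C_0, zero_add]
    · rw [pow_zero, one_mul]
  have hlow := lowest_part g (wt e) c E hE (by
    rw [← hev]
    unfold ev
    congr 2
    ext1 v
    exact (hc v).symm)
  rw [← hlow]
  apply Finset.sum_congr rfl
  intro m _
  congr 1
  apply Finset.prod_congr rfl
  intro v _
  congr 1
  simp only [c]
  by_cases hin : inb b (e v.1.1) = true ∧ inb b (e v.1.2) = true
  · rw [if_pos hin, if_neg (by rw [not_cr_of_inb hin.1 hin.2]; exact Bool.noConfusion), hAt]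
    simp only [eval_add, eval_mul, eval_C, eval_X, zero_mul, add_zero]
    rw [hA]
    unfold A0
    rw [if_pos hin]
  · rw [if_neg hin]
    split_ifs with h
    · simp only [eval_add, eval_mul, eval_C, eval_X, zero_mul, add_zero]
      rw [hA, hH, first_cross hG b hZ hdet _ _ h]
    · rw [hAt]
      simp only [eval_add, eval_mul, eval_C, eval_X, zero_mul, add_zero]
      rw [hA]
      unfold A0
      rw [if_neg hin, if_neg h]

end Pool.Agent.H47.Den
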