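import Pool.Agent.H47.Den.Lower

/-! # The lowest part of a polynomial vanishing on sums of few bivectors -/

namespace Pool.Agent.H47.Den

open Matrix

variable {F : Type*} [Field F] {ι : Type*} [LinearOrder ι]

section generic

lemma genAlt_diag (i : ι) : genAlt F ι i i = 0 := by
  unfold genAlt
  rw [dif_neg (lt_irrefl i), dif_neg (lt_irrefl i)]

lemma genAlt_symm (i j : ι) : genAlt F ι j i = -genAlt F ι i j := by
  unfold genAlt
  rcases lt_trichotomy i j with h | h | h
  · rw [dif_neg (lt_asymm h), dif_pos h, dif_pos h]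
  · subst h
    rw [dif_neg (lt_irrefl i), dif_neg (lt_irrefl i), neg_zero]
  · rw [dif_pos h, dif_neg (lt_asymm h), dif_pos h, neg_neg]

lemma genAlt_var (v : Var ι) : genAlt F ι v.1.1 v.1.2 = MvPolynomial.X v := by
  unfold genAlt
  rw [dif_pos v.2]

/-- Generic alternating matrices of even order are nonsingular. -/
lemma det_generic_ne_zero {X : Type*} [Fintype X] [DecidableEq X] {m : ℕ}
    (σ : X ≃ Fin m ⊕ Fin m) (ρ : X → ι) (hρ : Function.Injective ρ) :
    (Matrix.of fun x y => genAlt F ι (ρ x) (ρ y)).det ≠ 0 := by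
  intro h
  let p : Fin m → ι → F := fun l i => if i = ρ (σ.symm (Sum.inl l)) then 1 else 0
  let q : Fin m → ι → F := fun l i => if i = ρ (σ.symm (Sum.inr l)) then 1 else 0
  have h1 := congrArg (ev F (biv p q)) h
  rw [AlgHom.map_det, map_zero] at h1
  have h2 : (ev F (biv p q)).mapMatrix (Matrix.of fun x y => genAlt F ι (ρ x) (ρ y)) =
      ((Matrix.J (Fin m) F)ᵀ).submatrix σ σ := by
    ext x y
    have h3 := congrFun (congrFun (ev_genAlt (F := F) (biv_alt p q)) (ρ x)) (ρ y)
    rw [Matrix.map_apply] at h3
    rw [AlgHom.mapMatrix_apply, Matrix.map_apply, Matrix.of_apply, h3]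
    have hp : ∀ l x, p l (ρ x) = if σ x = Sum.inl l then 1 else 0 := by
      intro l x
      simp only [p]
      congr 1
      rw [hρ.eq_iff, Equiv.eq_symm_apply]
    have hq : ∀ l x, q l (ρ x) = if σ x = Sum.inr l then 1 else 0 := by
      intro l x
      simp only [q]
      congr 1
      rw [hρ.eq_iff, Equiv.eq_symm_apply]
    simp only [biv, hp, hq, Matrix.submatrix_apply, Matrix.transpose_apply, Matrix.J]
    rcases hx : σ x with s | s <;> rcases hy : σ y with t | t <;>
      simp [Matrix.fromBlocks, Matrix.one_apply, eq_comm]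
  rw [h2, Matrix.det_submatrix_equiv_self, Matrix.det_transpose] at h1
  have h4 := Matrix.isUnit_det_J (Fin m) F
  rw [h1] at h4
  exact not_isUnit_zero h4

end generic

variable [Fintype ι] {B : Type*} [DecidableEq B] {h : B → ℕ}

/-- The variables of block `b`. -/
def In (e : ι ≃ J h) (b : B) (v : Var ι) : Prop :=
  inb b (e v.1.1) = true ∧ inb b (e v.1.2) = true

instance (e : ι ≃ J h) (b : B) : DecidablePred (In e b) := fun v => by
  unfold In
  infer_instance

omit [Fintype ι] in
lemma In_disjoint (e : ι ≃ J h) {i j : B} (hij : j ≠ i) {v : Var ι} (h1 : In e j v) :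
    ¬ In e i v := by
  intro h2
  have h3 : ∀ x : J h, inb i x = true → inb j x = true → x = none := by
    intro x hx hx'
    rcases x with _ | x
    · rfl
    · simp only [inb, decide_eq_true_eq] at hx hx'
      exact absurd (hx'.symm.trans hx) hij
  have h4 : e v.1.1 = e v.1.2 := (h3 _ h2.1 h1.1).trans (h3 _ h2.2 h1.2).symm
  exact absurd (e.injective h4) v.2.ne

/-- `G` vanishes whenever block `b` (with the extra index) is a sum of `κ'` bivectors, as a
polynomial in all other variables. -/
def VanP (e : ι ≃ J h) (b : B) (κ' : Type*) [Fintype κ'] (G : MvPolynomial (Var ι) F) : Prop :=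
  ∀ zp zq : κ' → J h → F, MvPolynomial.aeval (fun v : Var ι => if In e b v then
    (MvPolynomial.C (biv zp zq (e v.1.1) (e v.1.2)) : MvPolynomial (Var ι) F)
    else MvPolynomial.X v) G = 0

omit [Fintype ι] in
lemma VanP.eval {e : ι ≃ J h} {b : B} {κ' : Type*} [Fintype κ'] {G : MvPolynomial (Var ι) F}
    (hG : VanP e b κ' G) (zp zq : κ' → J h → F) (y : Var ι → F)
    (hy : ∀ v, In e b v → y v = biv zp zq (e v.1.1) (e v.1.2)) : MvPolynomial.eval y G = 0 := by
  have h1 := congrArg (MvPolynomial.eval y) (hG zp zq)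
  rw [map_zero] at h1
  rw [← h1]
  have h2 : ∀ G : MvPolynomial (Var ι) F, MvPolynomial.eval y (MvPolynomial.aeval
      (fun v : Var ι => if In e b v then
        (MvPolynomial.C (biv zp zq (e v.1.1) (e v.1.2)) : MvPolynomial (Var ι) F)
        else MvPolynomial.X v) G) = MvPolynomial.eval y G := by
    intro G
    induction G using MvPolynomial.induction_on with
    | C a => simp
    | add p q hp hq => rw [map_add, map_add, map_add, hp, hq]
    | mul_X p v hp =>
      rw [map_mul, map_mul, map_mul, hp, MvPolynomial.aeval_X, MvPolynomial.eval_X]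
      congr 1
      split_ifs with hv
      · rw [MvPolynomial.eval_C, hy v hv]
      · rw [MvPolynomial.eval_X]
  rw [h2]

/-- The part of `g` of weight `E`. -/
noncomputable def low (e : ι ≃ J h) (g : MvPolynomial (Var ι) F) (E : ℕ) :
    MvPolynomial (Var ι) F :=
  ∑ m ∈ g.support.filter (fun m => ∑ v, wt e v * m v = E), MvPolynomial.monomial m (g.coeff m)

lemma coeff_low (e : ι ≃ J h) (g : MvPolynomial (Var ι) F) (E : ℕ) (m : Var ι →₀ ℕ) :
    (low e g E).coeff m = if ∑ v, wt e v * m v = E then g.coeff m else 0 := by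
  classical
  unfold low
  rw [MvPolynomial.coeff_sum]
  simp only [MvPolynomial.coeff_monomial]
  rw [Finset.sum_ite_eq' (Finset.filter _ _) m (fun m => MvPolynomial.coeff m g)]
  by_cases hm : m ∈ g.support
  · simp [hm]
  · rw [MvPolynomial.notMem_support_iff] at hm
    simp [hm]

lemma support_low (e : ι ≃ J h) (g : MvPolynomial (Var ι) F) (E : ℕ) :
    (low e g E).support = g.support.filter (fun m => ∑ v, wt e v * m v = E) := by
  ext m
  rw [MvPolynomial.mem_support_iff, coeff_low, Finset.mem_filter, MvPolynomial.mem_support_iff]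
  split_ifs with h1 <;> simp [h1]

variable [Fintype B]

lemma low_vanP {κ κ' : Type*} [Fintype κ] [Fintype κ'] (hκ : Fintype.card κ + 1 = ∑ j, h j)
    (b : B) (hκ' : Fintype.card κ' + 1 = h b)
    {g : MvPolynomial (Var ι) F} (hg : Van κ g) (e : ι ≃ J h) (E : ℕ)
    (hE : ∀ m ∈ g.support, E ≤ ∑ v, wt e v * m v) : VanP e b κ' (low e g E) := by
  classical
  intro zp zq
  let R := MvPolynomial (Var ι) F
  let K := FractionRing R
  have hinj : Function.Injective (algebraMap R K) := IsFractionRing.injective R K
  have h1 := block_identity hκ b hκ' hg e E hE (K := K)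
    (G := fun x y => algebraMap R K (genAlt F ι (e.symm x) (e.symm y)))
    ⟨fun x => by beta_reduce; rw [genAlt_diag, map_zero],
      fun x y => by beta_reduce; rw [genAlt_symm, map_neg]⟩
    (fun a => by
      have h := det_generic_ne_zero (F := F) (Equiv.refl (Fin (h a) ⊕ Fin (h a)))
        (fun s => e.symm (some ⟨a, s⟩)) (by
          intro s t hst
          have h1 := Option.some.inj (e.symm.injective hst)
          simpa using h1)
      intro h2
      apply h
      apply hinj
      rw [map_zero, RingHom.map_det, ← h2]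
      rfl) (fun l x => algebraMap F K (zp l x)) (fun l x => algebraMap F K (zq l x))
  apply hinj
  rw [map_zero, ← h1]
  unfold low
  rw [map_sum, map_sum]
  apply Finset.sum_congr rfl
  intro m _
  rw [MvPolynomial.aeval_monomial, Finsupp.prod_fintype _ _ (fun v => pow_zero _), map_mul,
    map_prod, ← IsScalarTower.algebraMap_apply F R K]
  congr 1
  apply Finset.prod_congr rfl
  intro v _
  rw [map_pow]
  congr 1
  by_cases hv : In e b v
  · have hv' : inb b (e v.1.1) = true ∧ inb b (e v.1.2) = true := hv
    rw [if_pos hv, if_pos hv']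
    simp only [biv]
    rw [map_sum, map_sum]
    apply Finset.sum_congr rfl
    intro l _
    rw [← map_mul, ← map_mul, ← map_sub, IsScalarTower.algebraMap_apply F R K]
    rfl
  · have hv' : ¬ (inb b (e v.1.1) = true ∧ inb b (e v.1.2) = true) := hv
    rw [if_neg hv, if_neg hv']
    simp only [Equiv.symm_apply_apply]
    rw [genAlt_var]

/-- The lowest part: it is nonzero, its monomials are monomials of `g`, it vanishes when one block
has corank three, and it is the leading term of `g` along the scaling of the cross variables. -/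
theorem exists_low {κ : Type*} [Fintype κ] (hκ : Fintype.card κ + 1 = ∑ j, h j)
    {g : MvPolynomial (Var ι) F} (hg : Van κ g) (hg0 : g ≠ 0) (e : ι ≃ J h) :
    ∃ (G : MvPolynomial (Var ι) F) (E : ℕ), G ≠ 0 ∧ G.support ⊆ g.support ∧
      (∀ (b : B) (n : ℕ), n + 1 = h b → VanP e b (Fin n) G) ∧
      ∀ y : Var ι → F, ∃ Q : Polynomial F, Q.eval 0 = MvPolynomial.eval y G ∧
        ∀ t : F, MvPolynomial.eval (fun v => t ^ wt e v * y v) g = t ^ E * Q.eval t := by
  classical
  have hne : g.support.Nonempty := MvPolynomial.support_nonempty.2 hg0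
  obtain ⟨m1, hm1, hmin⟩ := Finset.exists_min_image g.support
    (fun m => ∑ v, wt e v * m v) hne
  refine ⟨low e g (∑ v, wt e v * m1 v), ∑ v, wt e v * m1 v, ?_, ?_, ?_, ?_⟩
  · intro h0
    have h1 := coeff_low e g (∑ v, wt e v * m1 v) m1
    rw [if_pos rfl, h0, MvPolynomial.coeff_zero] at h1
    exact MvPolynomial.mem_support_iff.1 hm1 h1.symm
  · rw [support_low]
    exact Finset.filter_subset _ _
  · intro b n hn
    exact low_vanP hκ b (by rw [Fintype.card_fin]; exact hn) hg e _ hmin
  · intro y
    refine ⟨∑ m ∈ g.support, Polynomial.C (g.coeff m * ∏ v, y v ^ m v) *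
      Polynomial.X ^ ((∑ v, wt e v * m v) - ∑ v, wt e v * m1 v), ?_, ?_⟩
    · unfold low
      rw [map_sum, Polynomial.eval_finsetSum, Finset.sum_filter]
      apply Finset.sum_congr rfl
      intro m hm
      rw [Polynomial.eval_mul, Polynomial.eval_C, Polynomial.eval_pow, Polynomial.eval_X]
      split_ifs with h1
      · rw [h1, Nat.sub_self, pow_zero, mul_one, MvPolynomial.eval_monomial,
          Finsupp.prod_fintype _ _ (fun v => pow_zero _)]
      · rw [zero_pow, mul_zero]
        have := hmin m hm
        omega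
    · intro t
      rw [MvPolynomial.eval_eq', Polynomial.eval_finsetSum, Finset.mul_sum]
      apply Finset.sum_congr rfl
      intro m hm
      rw [Polynomial.eval_mul, Polynomial.eval_C, Polynomial.eval_pow, Polynomial.eval_X]
      have h2 : ∏ v, (t ^ wt e v * y v) ^ m v = t ^ (∑ v, wt e v * m v) * ∏ v, y v ^ m v := by
        rw [← Finset.prod_pow_eq_pow_sum, ← Finset.prod_mul_distrib]
        apply Finset.prod_congr rfl
        intro v _
        rw [mul_pow, ← pow_mul]
      rw [h2]
      obtain ⟨d, hd⟩ := Nat.exists_eq_add_of_le (hmin m hm)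
      rw [hd, Nat.add_sub_cancel_left, pow_add]
      ring

end Pool.Agent.H47.Den
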