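import Pool.Agent.H47.Den.Main

/-! # Evaluation rank -/

namespace Pool.Agent.H47.Den

open Matrix

variable {F : Type*} [Field F]

section completion

lemma transpose_mul_biv_mul' {κ X Y S : Type*} [Fintype κ] [Fintype X] [CommRing S]
    (p q : κ → X → S) (M : Matrix X Y S) :
    Mᵀ * biv p q * M = biv (fun l => p l ᵥ* M) (fun l => q l ᵥ* M) := by
  have h : ∀ p : κ → X → S, Matrix.of (fun l => p l ᵥ* M) = Matrix.of p * M := fun p => by
    ext l x
    rfl
  rw [biv_eq_sub p q, biv_eq_sub (fun l => p l ᵥ* M) (fun l => q l ᵥ* M), h, h, Matrix.mul_sub,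
    Matrix.sub_mul, Matrix.transpose_mul, Matrix.transpose_mul]
  simp only [Matrix.mul_assoc]

/-- An alternating matrix whose principal minor on `n + 1 = 2 r` indices is nonsingular agrees, in
all entries which meet these indices, with a sum of `r` bivectors. -/
lemma completion {X Y : Type*} [Fintype X] [DecidableEq X] {r : ℕ}
    (hX : Fintype.card X ≤ 2 * r + 1) (A : Matrix Y Y F) (hA : Alt A) (ρ : X → Y)
    (hdet : (A.submatrix ρ ρ).det ≠ 0) : ∃ zp zq : Fin r → Y → F,
      ∀ x y, (x ∈ Set.range ρ ∨ y ∈ Set.range ρ) → biv zp zq x y = A x y := by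
  classical
  obtain ⟨pp, qq, hpq⟩ := exists_bivectors r (Finset.univ : Finset X)
    (by rw [Finset.card_univ]; exact hX) (A.submatrix ρ ρ) (fun i => hA.1 _) (fun i j => hA.2 _ _)
    (fun i j hi => absurd (Finset.mem_univ i) hi)
  have hP : A.submatrix ρ ρ = biv pp qq := by
    ext i j
    exact hpq i j
  let W : Matrix X Y F := (A.submatrix ρ ρ)⁻¹ * A.submatrix ρ id
  refine ⟨fun l => pp l ᵥ* W, fun l => qq l ᵥ* W, ?_⟩
  have h1 : biv (fun l => pp l ᵥ* W) (fun l => qq l ᵥ* W) = Wᵀ * A.submatrix ρ id := by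
    rw [← transpose_mul_biv_mul', ← hP, Matrix.mul_assoc]
    congr 1
    simp only [W]
    rw [← Matrix.mul_assoc, Matrix.mul_nonsing_inv _ (isUnit_iff_ne_zero.2 hdet), Matrix.one_mul]
  have h2 : ∀ a y, biv (fun l => pp l ᵥ* W) (fun l => qq l ᵥ* W) (ρ a) y = A (ρ a) y := by
    intro a y
    rw [h1, Matrix.mul_apply]
    have h3 : ∀ s, Wᵀ (ρ a) s = (1 : Matrix X X F) s a := by
      intro s
      rw [Matrix.transpose_apply]
      have h4 : W s (ρ a) = ((A.submatrix ρ ρ)⁻¹ * A.submatrix ρ ρ) s a := by
        simp only [W, Matrix.mul_apply, Matrix.submatrix_apply, id]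
      rw [h4, Matrix.nonsing_inv_mul _ (isUnit_iff_ne_zero.2 hdet)]
    rw [Finset.sum_congr rfl fun s _ => by rw [h3 s]]
    simp [Matrix.one_apply]
  intro x y hxy
  rcases hxy with ⟨a, rfl⟩ | ⟨a, rfl⟩
  · exact h2 a y
  · rw [(biv_alt _ _).2 (ρ a) x, h2, ← hA.2]

end completion

variable {ι : Type*} [LinearOrder ι] {B : Type*} [DecidableEq B] {h : B → ℕ}

/-- A point with prescribed nonvanishing whose coordinates in `A` (inside block `b`) come from a sum
of few bivectors. -/
lemma exists_point [Infinite F] {e : ι ≃ J h} {b : B} {G : MvPolynomial (Var ι) F} (hG : G ≠ 0)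
    {r : ℕ} {X : Type*} [Fintype X] [DecidableEq X] (σ : X ≃ Fin r ⊕ Fin r) (ρ : X → J h)
    (hρ : Function.Injective ρ) (A : Set (Var ι))
    (hA : ∀ v ∈ A, In e b v → e v.1.1 ∈ Set.range ρ ∨ e v.1.2 ∈ Set.range ρ) :
    ∃ (zp zq : Fin r → J h → F) (y : Var ι → F), MvPolynomial.eval y G ≠ 0 ∧
      ∀ v ∈ A, In e b v → y v = biv zp zq (e v.1.1) (e v.1.2) := by
  classical
  have hdet := det_generic_ne_zero (F := F) σ (fun x => e.symm (ρ x))
    (fun x y hxy => hρ (e.symm.injective hxy))
  obtain ⟨y, hy⟩ : ∃ y : Var ι → F, MvPolynomial.eval y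
      (G * (Matrix.of fun x y => genAlt F ι (e.symm (ρ x)) (e.symm (ρ y))).det) ≠ 0 := by
    by_contra hcon
    push Not at hcon
    exact mul_ne_zero hG hdet (MvPolynomial.funext fun y => by rw [hcon y, map_zero])
  rw [map_mul] at hy
  have hy1 := left_ne_zero_of_mul hy
  have hy2 := right_ne_zero_of_mul hy
  let M : Matrix (J h) (J h) F := fun x x' => MvPolynomial.eval y (genAlt F ι (e.symm x) (e.symm x'))
  have hM : Alt M := by
    constructor
    · intro x
      simp only [M]
      rw [genAlt_diag, map_zero]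
    · intro x x'
      simp only [M]
      rw [genAlt_symm, map_neg]
  obtain ⟨zp, zq, hz⟩ := completion (r := r) (by
    rw [Fintype.card_congr σ, Fintype.card_sum, Fintype.card_fin]
    omega) M hM ρ (by
      rw [RingHom.map_det] at hy2
      exact hy2)
  refine ⟨zp, zq, y, hy1, fun v hv hin => ?_⟩
  rw [hz _ _ (hA v hv hin)]
  simp only [M]
  rw [Equiv.symm_apply_apply, Equiv.symm_apply_apply, genAlt_var, MvPolynomial.eval_X]

open Polynomial in
/-- A common choice of the bivectors for the two sides. -/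
lemma exists_common [Infinite F] {e : ι ≃ J h} {b : B} {G : MvPolynomial (Var ι) F} {r : ℕ}
    (A1 A2 : Set (Var ι))
    (h1 : ∃ (zp zq : Fin r → J h → F) (y : Var ι → F), MvPolynomial.eval y G ≠ 0 ∧
      ∀ v ∈ A1, In e b v → y v = biv zp zq (e v.1.1) (e v.1.2))
    (h2 : ∃ (zp zq : Fin r → J h → F) (y : Var ι → F), MvPolynomial.eval y G ≠ 0 ∧
      ∀ v ∈ A2, In e b v → y v = biv zp zq (e v.1.1) (e v.1.2)) :
    ∃ (zp zq : Fin r → J h → F) (y1 y2 : Var ι → F), MvPolynomial.eval y1 G ≠ 0 ∧
      MvPolynomial.eval y2 G ≠ 0 ∧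
      (∀ v ∈ A1, In e b v → y1 v = biv zp zq (e v.1.1) (e v.1.2)) ∧
      (∀ v ∈ A2, In e b v → y2 v = biv zp zq (e v.1.1) (e v.1.2)) := by
  classical
  obtain ⟨p1, q1, y1, hy1, hz1⟩ := h1
  obtain ⟨p2, q2, y2, hy2, hz2⟩ := h2
  let P : Fin r → J h → F[X] := fun l x => C (p1 l x) + X * C (p2 l x - p1 l x)
  let Q : Fin r → J h → F[X] := fun l x => C (q1 l x) + X * C (q2 l x - q1 l x)
  let f1 : Var ι → F[X] := fun v => if v ∈ A1 ∧ In e b v then biv P Q (e v.1.1) (e v.1.2)
    else C (y1 v)
  let f2 : Var ι → F[X] := fun v => if v ∈ A2 ∧ In e b v then biv P Q (e v.1.1) (e v.1.2)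
    else C (y2 v)
  have hev : ∀ (s : F) (f : Var ι → F[X]), Polynomial.eval s (MvPolynomial.aeval f G) =
      MvPolynomial.eval (fun v => Polynomial.eval s (f v)) G := by
    intro s f
    have h3 : (Polynomial.evalRingHom s).comp (MvPolynomial.aeval f : MvPolynomial (Var ι) F →ₐ[F] F[X]).toRingHom =
        MvPolynomial.eval (fun v => Polynomial.eval s (f v)) := by
      apply MvPolynomial.ringHom_ext
      · intro a
        simp
      · intro v
        simp
    exact DFunLike.congr_fun h3 G
  have hbiv : ∀ (s : F) x y, Polynomial.eval s (biv P Q x y) =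
      biv (fun l x => Polynomial.eval s (P l x)) (fun l x => Polynomial.eval s (Q l x)) x y := by
    intro s x y
    simp only [biv]
    rw [Polynomial.eval_finsetSum]
    apply Finset.sum_congr rfl
    intro l _
    rw [eval_sub, eval_mul, eval_mul]
  have hP0 : ∀ l x, Polynomial.eval 0 (P l x) = p1 l x := by intro l x; simp [P]
  have hQ0 : ∀ l x, Polynomial.eval 0 (Q l x) = q1 l x := by intro l x; simp [Q]
  have hP1 : ∀ l x, Polynomial.eval 1 (P l x) = p2 l x := by intro l x; simp [P]
  have hQ1 : ∀ l x, Polynomial.eval 1 (Q l x) = q2 l x := by intro l x; simp [Q]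
  have hn1 : MvPolynomial.aeval f1 G ≠ 0 := by
    intro h0
    apply hy1
    have h3 := hev 0 f1
    rw [h0, eval_zero] at h3
    rw [h3]
    congr 2
    funext v
    simp only [f1]
    split_ifs with hv
    · rw [hbiv, hz1 v hv.1 hv.2]
      simp only [hP0, hQ0]
    · rw [eval_C]
  have hn2 : MvPolynomial.aeval f2 G ≠ 0 := by
    intro h0
    apply hy2
    have h3 := hev 1 f2
    rw [h0, eval_zero] at h3
    rw [h3]
    congr 2
    funext v
    simp only [f2]
    split_ifs with hv
    · rw [hbiv, hz2 v hv.1 hv.2]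
      simp only [hP1, hQ1]
    · rw [eval_C]
  obtain ⟨s, hs⟩ : ∃ s : F, Polynomial.eval s (MvPolynomial.aeval f1 G * MvPolynomial.aeval f2 G) ≠ 0 := by
    by_contra hcon
    push Not at hcon
    exact mul_ne_zero hn1 hn2 (Polynomial.funext fun s => by rw [hcon s, eval_zero])
  rw [eval_mul] at hs
  refine ⟨fun l x => Polynomial.eval s (P l x), fun l x => Polynomial.eval s (Q l x),
    fun v => Polynomial.eval s (f1 v), fun v => Polynomial.eval s (f2 v), ?_, ?_, ?_, ?_⟩
  · rw [← hev]
    exact left_ne_zero_of_mul hs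
  · rw [← hev]
    exact right_ne_zero_of_mul hs
  · intro v hv hin
    simp only [f1]
    rw [if_pos ⟨hv, hin⟩, hbiv]
  · intro v hv hin
    simp only [f2]
    rw [if_pos ⟨hv, hin⟩, hbiv]

section bigRank

open Classical in
/-- The point with coordinates `α` on `S` and `β` outside. -/
noncomputable def mix (S : Set (Var ι)) (α β : Var ι → F) : Var ι → F :=
  fun v => if v ∈ S then α v else β v

omit [Field F] in
lemma mix_self (S : Set (Var ι)) (y : Var ι → F) : mix S y y = y := by
  funext v
  simp [mix]

/-- The matrix of values of `G` on a grid of points `α i` (on `S`) and `β j` (outside `S`) is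
nonsingular of order `2 ^ k`. -/
def BigRank (S : Set (Var ι)) (G : MvPolynomial (Var ι) F) (k : ℕ) : Prop :=
  ∃ (I : Type) (_ : Fintype I) (_ : DecidableEq I), Fintype.card I = 2 ^ k ∧
    ∃ α β : I → Var ι → F,
      (Matrix.of fun i j => MvPolynomial.eval (mix S (α i) (β j)) G).det ≠ 0

/-- Function version of `VanP` for two bivectors. -/
def VanE (e : ι ≃ J h) (b : B) (G : MvPolynomial (Var ι) F) : Prop :=
  ∀ zp zq : Fin 2 → J h → F, ∀ y : Var ι → F,
    (∀ v, In e b v → y v = biv zp zq (e v.1.1) (e v.1.2)) → MvPolynomial.eval y G = 0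

/-- Partial substitution. -/
noncomputable def sub (e : ι ≃ J h) (b : B) (y : Var ι → F) (G : MvPolynomial (Var ι) F) :
    MvPolynomial (Var ι) F :=
  MvPolynomial.aeval (fun v : Var ι => if In e b v then
    (MvPolynomial.C (y v) : MvPolynomial (Var ι) F) else MvPolynomial.X v) G

lemma eval_sub (e : ι ≃ J h) (b : B) (y x : Var ι → F) (G : MvPolynomial (Var ι) F) :
    MvPolynomial.eval x (sub e b y G) =
      MvPolynomial.eval (fun v => if In e b v then y v else x v) G := by
  unfold sub
  induction G using MvPolynomial.induction_on with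
  | C a => simp
  | add p q hp hq => rw [map_add, map_add, map_add, hp, hq]
  | mul_X p v hp =>
    rw [map_mul, map_mul, map_mul, hp, MvPolynomial.aeval_X, MvPolynomial.eval_X]
    congr 1
    split_ifs with hv
    · rw [MvPolynomial.eval_C]
    · rw [MvPolynomial.eval_X]

/-- The two triples of indices of block `b` lie on different sides of the cut: edges inside the
first triple belong to `S`, edges inside the second one do not. -/
def Split (e : ι ≃ J h) (S : Set (Var ι)) (b : B) : Prop :=
  (∀ v : Var ι, ∀ l l', e v.1.1 = some ⟨b, Sum.inl l⟩ → e v.1.2 = some ⟨b, Sum.inl l'⟩ → v ∈ S) ∧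
  (∀ v : Var ι, ∀ l l', e v.1.1 = some ⟨b, Sum.inr l⟩ → e v.1.2 = some ⟨b, Sum.inr l'⟩ → v ∉ S)

lemma mem_or_of_inb {b : B} {x : J h} (hx : inb b x = true) :
    (∃ o : Option (Fin (h b)), x = o.elim none fun l => some ⟨b, Sum.inl l⟩) ∨
      (∃ l, x = some ⟨b, Sum.inr l⟩) := by
  rcases x with _ | ⟨a, s⟩
  · exact Or.inl ⟨none, rfl⟩
  · have hab : a = b := by simpa [inb] using hx
    subst hab
    rcases s with l | l
    · exact Or.inl ⟨some l, rfl⟩
    · exact Or.inr ⟨l, rfl⟩

lemma mem_or_of_inb' {b : B} {x : J h} (hx : inb b x = true) :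
    (∃ o : Option (Fin (h b)), x = o.elim none fun l => some ⟨b, Sum.inr l⟩) ∨
      (∃ l, x = some ⟨b, Sum.inl l⟩) := by
  rcases x with _ | ⟨a, s⟩
  · exact Or.inl ⟨none, rfl⟩
  · have hab : a = b := by simpa [inb] using hx
    subst hab
    rcases s with l | l
    · exact Or.inr ⟨l, rfl⟩
    · exact Or.inl ⟨some l, rfl⟩

theorem bigRank_of_vanE [Infinite F] (e : ι ≃ J h) (S : Set (Var ι)) (I : Finset B) :
    (∀ b ∈ I, h b = 3) → (∀ b ∈ I, Split e S b) → ∀ G : MvPolynomial (Var ι) F, G ≠ 0 →
      (∀ b ∈ I, VanE e b G) → BigRank S G I.card := by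
  classical
  induction I using Finset.induction_on with
  | empty =>
    intro _ _ G hG _
    obtain ⟨y, hy⟩ : ∃ y : Var ι → F, MvPolynomial.eval y G ≠ 0 := by
      by_contra hcon
      push Not at hcon
      exact hG (MvPolynomial.funext fun y => by rw [hcon y, map_zero])
    refine ⟨Unit, inferInstance, inferInstance, by simp, fun _ => y, fun _ => y, ?_⟩
    rw [Matrix.det_unique]
    rw [Matrix.of_apply, mix_self]
    exact hy
  | insert b I hb ih =>
    intro h3 hsplit G hG hvan
    have hb3 : h b = 3 := h3 b (Finset.mem_insert_self _ _)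
    obtain ⟨hs1, hs2⟩ := hsplit b (Finset.mem_insert_self _ _)
    have σ : Option (Fin (h b)) ≃ Fin 2 ⊕ Fin 2 := Fintype.equivOfCardEq (by
      rw [Fintype.card_option, Fintype.card_fin, Fintype.card_sum, Fintype.card_fin, hb3])
    have hp1 := exists_point hG σ
      (fun o : Option (Fin (h b)) => (o.elim none fun l => some ⟨b, Sum.inl l⟩ : J h)) (by
        intro o o' hoo
        rcases o with _ | l <;> rcases o' with _ | l' <;> simp at hoo ⊢
        exact hoo) (e := e) (b := b) S (by
        intro v hv hin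
        rcases mem_or_of_inb hin.1 with ⟨o, ho⟩ | ⟨l, hl⟩
        · exact Or.inl ⟨o, ho.symm⟩
        · rcases mem_or_of_inb hin.2 with ⟨o, ho⟩ | ⟨l', hl'⟩
          · exact Or.inr ⟨o, ho.symm⟩
          · exact absurd hv (hs2 v l l' hl hl'))
    have hp2 := exists_point hG σ
      (fun o : Option (Fin (h b)) => (o.elim none fun l => some ⟨b, Sum.inr l⟩ : J h)) (by
        intro o o' hoo
        rcases o with _ | l <;> rcases o' with _ | l' <;> simp at hoo ⊢
        exact hoo) (e := e) (b := b) Sᶜ (by
        intro v hv hin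
        rcases mem_or_of_inb' hin.1 with ⟨o, ho⟩ | ⟨l, hl⟩
        · exact Or.inl ⟨o, ho.symm⟩
        · rcases mem_or_of_inb' hin.2 with ⟨o, ho⟩ | ⟨l', hl'⟩
          · exact Or.inr ⟨o, ho.symm⟩
          · exact absurd (hs1 v l l' hl hl') hv)
    obtain ⟨zp, zq, y1, y2, hy1, hy2, hz1, hz2⟩ := exists_common S Sᶜ hp1 hp2
    have hsub : ∀ y : Var ι → F, MvPolynomial.eval y G ≠ 0 → BigRank S (sub e b y G) I.card := by
      intro y hy
      apply ih (fun b' hb' => h3 b' (Finset.mem_insert_of_mem hb'))
        (fun b' hb' => hsplit b' (Finset.mem_insert_of_mem hb'))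
      · intro h0
        apply hy
        have h4 := eval_sub e b y y G
        rw [h0, map_zero] at h4
        rw [h4]
        congr 2
        funext v
        split_ifs <;> rfl
      · intro b' hb' zp' zq' x hx
        rw [eval_sub]
        apply hvan b' (Finset.mem_insert_of_mem hb') zp' zq'
        intro v hv
        have hne : b' ≠ b := fun h => hb (h ▸ hb')
        rw [if_neg (In_disjoint e hne hv)]
        exact hx v hv
    obtain ⟨I1, _, _, hI1, α1, β1, hd1⟩ := hsub y1 hy1
    obtain ⟨I2, _, _, hI2, α2, β2, hd2⟩ := hsub y2 hy2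
    refine ⟨I1 ⊕ I2, inferInstance, inferInstance, ?_,
      Sum.elim (fun i v => if In e b v then y1 v else α1 i v)
        (fun i v => if In e b v then y2 v else α2 i v),
      Sum.elim (fun i v => if In e b v then y1 v else β1 i v)
        (fun i v => if In e b v then y2 v else β2 i v), ?_⟩
    · rw [Fintype.card_sum, hI1, hI2, Finset.card_insert_of_notMem hb, pow_succ]
      ring
    · have hblock : (Matrix.of fun i j => MvPolynomial.eval (mix S
          (Sum.elim (fun i v => if In e b v then y1 v else α1 i v)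
            (fun i v => if In e b v then y2 v else α2 i v) i)
          (Sum.elim (fun i v => if In e b v then y1 v else β1 i v)
            (fun i v => if In e b v then y2 v else β2 i v) j)) G) =
          Matrix.fromBlocks
            (Matrix.of fun i j => MvPolynomial.eval (mix S (α1 i) (β1 j)) (sub e b y1 G)) 0
            (Matrix.of fun i j => MvPolynomial.eval (mix S
              (fun v => if In e b v then y2 v else α2 i v)
              (fun v => if In e b v then y1 v else β1 j v)) G)
            (Matrix.of fun i j => MvPolynomial.eval (mix S (α2 i) (β2 j)) (sub e b y2 G)) := by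
        ext i j
        rcases i with i | i <;> rcases j with j | j
        · simp only [Matrix.of_apply, Sum.elim_inl, Matrix.fromBlocks_apply₁₁]
          rw [eval_sub]
          congr 2
          funext v
          unfold mix
          by_cases hv : In e b v <;> by_cases hS : v ∈ S <;> simp [hv, hS]
        · simp only [Matrix.of_apply, Sum.elim_inl, Sum.elim_inr, Matrix.fromBlocks_apply₁₂,
            Matrix.zero_apply]
          apply hvan b (Finset.mem_insert_self _ _) zp zq
          intro v hv
          unfold mix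
          simp only [if_pos hv]
          split_ifs with hvS
          · exact hz1 v hvS hv
          · exact hz2 v hvS hv
        · simp only [Matrix.of_apply, Sum.elim_inl, Sum.elim_inr, Matrix.fromBlocks_apply₂₁]
        · simp only [Matrix.of_apply, Sum.elim_inr, Matrix.fromBlocks_apply₂₂]
          rw [eval_sub]
          congr 2
          funext v
          unfold mix
          by_cases hv : In e b v <;> by_cases hS : v ∈ S <;> simp [hv, hS]
      rw [hblock, Matrix.det_fromBlocks_zero₁₂]
      exact mul_ne_zero hd1 hd2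

open Polynomial in
/-- Evaluation rank does not increase when passing to the leading term. -/
theorem bigRank_semicont [Infinite F] (S : Set (Var ι)) {g G : MvPolynomial (Var ι) F}
    (w : Var ι → ℕ) (E k : ℕ)
    (hgG : ∀ y : Var ι → F, ∃ Q : Polynomial F, Q.eval 0 = MvPolynomial.eval y G ∧
        ∀ t : F, MvPolynomial.eval (fun v => t ^ w v * y v) g = t ^ E * Q.eval t)
    (hG : BigRank S G k) : BigRank S g k := by
  classical
  obtain ⟨I, _, _, hI, α, β, hd⟩ := hG
  choose Q hQ0 hQt using hgG
  let D : F[X] := (Matrix.of fun i j => Q (mix S (α i) (β j))).det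
  have hD : ∀ t : F, D.eval t = (Matrix.of fun i j => (Q (mix S (α i) (β j))).eval t).det := by
    intro t
    have := RingHom.map_det (Polynomial.evalRingHom t) (Matrix.of fun i j => Q (mix S (α i) (β j)))
    exact this
  have hD0 : D ≠ 0 := by
    intro h0
    apply hd
    have h1 := hD 0
    rw [h0, eval_zero] at h1
    rw [h1]
    congr 1
    ext i j
    rw [Matrix.of_apply, Matrix.of_apply, hQ0]
  obtain ⟨t, ht⟩ : ∃ t : F, Polynomial.eval t (X * D) ≠ 0 := by
    by_contra hcon
    push Not at hcon
    exact mul_ne_zero X_ne_zero hD0 (Polynomial.funext fun s => by rw [hcon s, eval_zero])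
  rw [eval_mul, eval_X] at ht
  have ht0 := left_ne_zero_of_mul ht
  have htD := right_ne_zero_of_mul ht
  refine ⟨I, inferInstance, inferInstance, hI, fun i v => t ^ w v * α i v,
    fun i v => t ^ w v * β i v, ?_⟩
  have h1 : (Matrix.of fun i j => MvPolynomial.eval (mix S (fun v => t ^ w v * α i v)
      (fun v => t ^ w v * β j v)) g) =
      (t ^ E) • (Matrix.of fun i j => (Q (mix S (α i) (β j))).eval t) := by
    ext i j
    rw [Matrix.of_apply, Matrix.smul_apply, Matrix.of_apply, smul_eq_mul, ← hQt]
    congr 2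
    funext v
    unfold mix
    split_ifs <;> rfl
  rw [h1, Matrix.det_smul, ← hD]
  exact mul_ne_zero (pow_ne_zero _ (pow_ne_zero _ ht0)) htD

/-- A decomposition with `w` terms bounds the evaluation rank. -/
theorem BigRank.le_width {S : Set (Var ι)} {g : MvPolynomial (Var ι) F} {k w : ℕ}
    (hg : BigRank S g k) (A A' : (Var ι → F) → Fin w → F)
    (hA : ∀ α β, MvPolynomial.eval (mix S α β) g = ∑ l, A α l * A' β l) : 2 ^ k ≤ w := by
  classical
  obtain ⟨I, _, _, hI, α, β, hd⟩ := hg
  have h1 : (Matrix.of fun i j => MvPolynomial.eval (mix S (α i) (β j)) g) =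
      (Matrix.of fun i l => A (α i) l) * (Matrix.of fun l j => A' (β j) l) := by
    ext i j
    rw [Matrix.of_apply, hA, Matrix.mul_apply]
    rfl
  have h2 := Matrix.rank_of_isUnit _ ((Matrix.isUnit_iff_isUnit_det _).2
    (isUnit_iff_ne_zero.2 hd))
  rw [h1] at h2
  have h3 := (Matrix.rank_mul_le_left (Matrix.of fun i l => A (α i) l)
    (Matrix.of fun l j => A' (β j) l)).trans (Matrix.rank_le_card_width _)
  rw [h2, hI, Fintype.card_fin] at h3
  exact h3

end bigRank

end Pool.Agent.H47.Den
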