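import Pool.Agent.H47.Den.Rank

/-! # Read-once oblivious branching programs and monochromatic triangles -/

namespace Pool.Agent.H47.Den

open Matrix

variable {F : Type*} [Field F]

/-- `g` is computed by a read-once oblivious algebraic branching program (ROABP) of width `w` which
reads the variables in the order `τ 0, τ 1, …`: it is `uᵀ M₀(x_{τ 0}) M₁(x_{τ 1}) ⋯ v` with
`w × w` matrices `Mᵢ` of univariate polynomials. -/
def ROABP {σ : Type*} {N : ℕ} (τ : Fin N ≃ σ) (w : ℕ) (g : MvPolynomial σ F) : Prop :=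
  ∃ (M : Fin N → Matrix (Fin w) (Fin w) (Polynomial F)) (u v : Fin w → F),
    g = (fun i => MvPolynomial.C (u i)) ⬝ᵥ
      ((List.ofFn fun i => (M i).map (fun p => Polynomial.aeval (MvPolynomial.X (τ i)) p)).prod *ᵥ
        fun j => MvPolynomial.C (v j))

lemma take_ofFn_congr {α : Type*} {N : ℕ} (t : ℕ) (f g : Fin N → α)
    (h : ∀ i : Fin N, i.val < t → f i = g i) :
    (List.ofFn f).take t = (List.ofFn g).take t := by
  apply List.ext_getElem
  · simp
  · intro i h1 h2
    rw [List.getElem_take, List.getElem_take, List.getElem_ofFn, List.getElem_ofFn]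
    apply h
    simp only [List.length_take, List.length_ofFn] at h1
    simp only
    omega

lemma drop_ofFn_congr {α : Type*} {N : ℕ} (t : ℕ) (f g : Fin N → α)
    (h : ∀ i : Fin N, t ≤ i.val → f i = g i) :
    (List.ofFn f).drop t = (List.ofFn g).drop t := by
  apply List.ext_getElem
  · simp
  · intro i h1 h2
    rw [List.getElem_drop, List.getElem_drop, List.getElem_ofFn, List.getElem_ofFn]
    apply h
    simp only
    omega

variable {ι : Type*} [LinearOrder ι]

/-- The set of the first `t` variables in the order `τ`. -/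
def pre {σ : Type*} {N : ℕ} (τ : Fin N ≃ σ) (t : ℕ) : Set σ := {v | (τ.symm v).val < t}

lemma ROABP.decomp {N : ℕ} {τ : Fin N ≃ Var ι} {w : ℕ} {g : MvPolynomial (Var ι) F}
    (hg : ROABP τ w g) (t : ℕ) : ∃ A A' : (Var ι → F) → Fin w → F,
      ∀ α β, MvPolynomial.eval (mix (pre τ t) α β) g = ∑ l, A α l * A' β l := by
  obtain ⟨M, u, v, rfl⟩ := hg
  let f : (Var ι → F) → Fin N → Matrix (Fin w) (Fin w) F := fun y i =>
    (M i).map (fun p => Polynomial.eval (y (τ i)) p)
  refine ⟨fun α => u ᵥ* ((List.ofFn (f α)).take t).prod,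
    fun β => ((List.ofFn (f β)).drop t).prod *ᵥ v, fun α β => ?_⟩
  set y := mix (pre τ t) α β with hy
  have h1 : (MvPolynomial.eval y).mapMatrix
      (List.ofFn fun i => (M i).map (fun p => Polynomial.aeval (MvPolynomial.X (τ i)) p)).prod =
      (List.ofFn (f y)).prod := by
    rw [map_list_prod]
    congr 1
    rw [List.map_ofFn]
    congr 1
    funext i
    simp only [Function.comp, RingHom.mapMatrix_apply, Matrix.map_map, f]
    congr 1
    funext p
    simp only [Function.comp]
    have h2 : (MvPolynomial.eval y).comp ((Polynomial.aeval (MvPolynomial.X (τ i)) :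
        Polynomial F →ₐ[F] MvPolynomial (Var ι) F) : Polynomial F →+* MvPolynomial (Var ι) F) =
        Polynomial.evalRingHom (y (τ i)) := by
      apply Polynomial.ringHom_ext
      · intro a
        simp
      · simp
    exact DFunLike.congr_fun h2 p
  have h3 : MvPolynomial.eval y ((fun i => MvPolynomial.C (u i)) ⬝ᵥ
      ((List.ofFn fun i => (M i).map (fun p => Polynomial.aeval (MvPolynomial.X (τ i)) p)).prod *ᵥ
        fun j => MvPolynomial.C (v j))) = u ⬝ᵥ ((List.ofFn (f y)).prod *ᵥ v) := by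
    rw [← h1]
    simp only [dotProduct, Matrix.mulVec, map_sum, map_mul, MvPolynomial.eval_C,
      RingHom.mapMatrix_apply, Matrix.map_apply]
  rw [h3]
  have h4 : (List.ofFn (f y)).prod =
      ((List.ofFn (f α)).take t).prod * ((List.ofFn (f β)).drop t).prod := by
    rw [← List.take_append_drop t (List.ofFn (f y)), List.prod_append]
    congr 2
    · apply take_ofFn_congr
      intro i hi
      simp only [f]
      have : y (τ i) = α (τ i) := by
        rw [hy]
        unfold mix
        rw [if_pos]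
        simpa [pre] using hi
      rw [this]
    · apply drop_ofFn_congr
      intro i hi
      simp only [f]
      have : y (τ i) = β (τ i) := by
        rw [hy]
        unfold mix
        rw [if_neg]
        simpa [pre] using hi
      rw [this]
  rw [h4, ← Matrix.mulVec_mulVec, Matrix.dotProduct_mulVec]
  rfl

section triangles

/-- The edge `xy` belongs to `S`. -/
def red (S : Set (Var ι)) (x y : ι) : Prop :=
  ∃ v ∈ S, (v.1.1 = x ∧ v.1.2 = y) ∨ (v.1.1 = y ∧ v.1.2 = x)

lemma red_symm {S : Set (Var ι)} {x y : ι} (h : red S x y) : red S y x := by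
  obtain ⟨v, hv, h⟩ := h
  exact ⟨v, hv, h.symm⟩

lemma mem_of_red {S : Set (Var ι)} {x y : ι} (h : red S x y) {v : Var ι} (h1 : v.1.1 = x)
    (h2 : v.1.2 = y) : v ∈ S := by
  obtain ⟨v', hv', h⟩ := h
  have h3 : v = v' := by
    apply Subtype.ext
    rcases h with ⟨h3, h4⟩ | ⟨h3, h4⟩
    · exact Prod.ext (h1.trans h3.symm) (h2.trans h4.symm)
    · exfalso
      have h5 := v.2
      have h6 := v'.2
      rw [h1, h2] at h5
      rw [h3, h4] at h6
      exact lt_asymm h5 h6
  rw [h3]
  exact hv'

/-- Among six points without red triangle there is a blue triangle. -/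
lemma exists_blue (S : Set (Var ι)) (W : Finset ι) (hW : 6 ≤ W.card)
    (hno : ∀ a ∈ W, ∀ b ∈ W, ∀ c ∈ W, red S a b → red S b c → red S a c → False) :
    ∃ a ∈ W, ∃ b ∈ W, ∃ c ∈ W, a ≠ b ∧ b ≠ c ∧ a ≠ c ∧ ¬ red S a b ∧ ¬ red S b c ∧ ¬ red S a c := by
  classical
  obtain ⟨x, hx⟩ : W.Nonempty := Finset.card_pos.1 (by omega)
  have h1 := Finset.card_filter_add_card_filter_not (s := W.erase x) (fun y => red S x y)
  rw [Finset.card_erase_of_mem hx] at h1
  have h2 : 2 < ((W.erase x).filter fun y => red S x y).card ∨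
      2 < ((W.erase x).filter fun y => ¬ red S x y).card := by omega
  rcases h2 with h2 | h2
  · obtain ⟨a, ha, b, hb, c, hc, hab, hac, hbc⟩ := Finset.two_lt_card.1 h2
    rw [Finset.mem_filter, Finset.mem_erase] at ha hb hc
    refine ⟨a, ha.1.2, b, hb.1.2, c, hc.1.2, hab, hbc, hac, ?_, ?_, ?_⟩
    · exact fun h => hno x hx a ha.1.2 b hb.1.2 ha.2 h hb.2
    · exact fun h => hno x hx b hb.1.2 c hc.1.2 hb.2 h hc.2
    · exact fun h => hno x hx a ha.1.2 c hc.1.2 ha.2 h hc.2
  · obtain ⟨a, ha, b, hb, c, hc, hab, hac, hbc⟩ := Finset.two_lt_card.1 h2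
    rw [Finset.mem_filter, Finset.mem_erase] at ha hb hc
    by_cases h3 : red S a b
    · by_cases h4 : red S b c
      · by_cases h5 : red S a c
        · exact (hno a ha.1.2 b hb.1.2 c hc.1.2 h3 h4 h5).elim
        · exact ⟨x, hx, a, ha.1.2, c, hc.1.2, ha.1.1.symm, hac, hc.1.1.symm, ha.2, h5, hc.2⟩
      · exact ⟨x, hx, b, hb.1.2, c, hc.1.2, hb.1.1.symm, hbc, hc.1.1.symm, hb.2, h4, hc.2⟩
    · exact ⟨x, hx, a, ha.1.2, b, hb.1.2, ha.1.1.symm, hab, hb.1.1.symm, ha.2, h3, hb.2⟩

/-- Disjoint blue triangles in a large set without red triangle. -/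
lemma exists_blue_pack (S : Set (Var ι)) (k : ℕ) : ∀ (W : Finset ι), 3 * k + 3 ≤ W.card →
    (∀ a ∈ W, ∀ b ∈ W, ∀ c ∈ W, red S a b → red S b c → red S a c → False) →
    ∃ f : Fin k → Fin 3 → ι, (∀ j l j' l', f j l = f j' l' → j = j' ∧ l = l') ∧
      (∀ j l, f j l ∈ W) ∧ ∀ j l l', l ≠ l' → ¬ red S (f j l) (f j l') := by
  classical
  induction k with
  | zero =>
    intro W _ _
    exact ⟨fun j => j.elim0, fun j => j.elim0, fun j => j.elim0, fun j => j.elim0⟩
  | succ k ih =>
    intro W hW hno
    obtain ⟨a, ha, b, hb, c, hc, hab, hbc, hac, h1, h2, h3⟩ := exists_blue S W (by omega) hno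
    obtain ⟨f, hf1, hf2, hf3⟩ := ih (((W.erase a).erase b).erase c) (by
      rw [Finset.card_erase_of_mem (Finset.mem_erase.2 ⟨hbc.symm, Finset.mem_erase.2 ⟨hac.symm, hc⟩⟩),
        Finset.card_erase_of_mem (Finset.mem_erase.2 ⟨hab.symm, hb⟩), Finset.card_erase_of_mem ha]
      omega) (by
      intro x hx y hy z hz
      exact hno x (Finset.mem_of_mem_erase (Finset.mem_of_mem_erase (Finset.mem_of_mem_erase hx)))
        y (Finset.mem_of_mem_erase (Finset.mem_of_mem_erase (Finset.mem_of_mem_erase hy)))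
        z (Finset.mem_of_mem_erase (Finset.mem_of_mem_erase (Finset.mem_of_mem_erase hz))))
    have hf4 : ∀ j l, f j l ∈ W ∧ f j l ≠ a ∧ f j l ≠ b ∧ f j l ≠ c := by
      intro j l
      have h := hf2 j l
      rw [Finset.mem_erase, Finset.mem_erase, Finset.mem_erase] at h
      exact ⟨h.2.2.2, h.2.2.1, h.2.1, h.1⟩
    have habc : ∀ l : Fin 3, ∀ j l', (![a, b, c] : Fin 3 → ι) l ≠ f j l' := by
      intro l j l'
      have h := hf4 j l'
      fin_cases l
      · exact h.2.1.symm
      · exact h.2.2.1.symm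
      · exact h.2.2.2.symm
    refine ⟨Fin.cons ![a, b, c] f, ?_, ?_, ?_⟩
    · intro j l j' l'
      refine Fin.cases ?_ (fun j => ?_) j <;> refine Fin.cases ?_ (fun j' => ?_) j'
      · intro h
        rw [Fin.cons_zero] at h
        refine ⟨rfl, ?_⟩
        fin_cases l <;> fin_cases l' <;> simp at h ⊢
        · exact hab h
        · exact hac h
        · exact hab h.symm
        · exact hbc h
        · exact hac h.symm
        · exact hbc h.symm
      · intro h
        rw [Fin.cons_zero, Fin.cons_succ] at h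
        exact (habc l j' l' h).elim
      · intro h
        rw [Fin.cons_zero, Fin.cons_succ] at h
        exact (habc l' j l h.symm).elim
      · intro h
        rw [Fin.cons_succ, Fin.cons_succ] at h
        obtain ⟨h4, h5⟩ := hf1 _ _ _ _ h
        exact ⟨by rw [h4], h5⟩
    · intro j l
      refine Fin.cases ?_ (fun j => ?_) j
      · rw [Fin.cons_zero]
        fin_cases l
        · exact ha
        · exact hb
        · exact hc
      · rw [Fin.cons_succ]
        exact (hf4 j l).1
    · intro j l l' hll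
      refine Fin.cases ?_ (fun j => ?_) j
      · rw [Fin.cons_zero]
        fin_cases l <;> fin_cases l' <;> simp at hll ⊢
        · exact h1
        · exact h3
        · exact fun h => h1 (red_symm h)
        · exact h2
        · exact fun h => h3 (red_symm h)
        · exact fun h => h2 (red_symm h)
      · rw [Fin.cons_succ]
        exact hf3 j l l' hll

/-- `k` disjoint red triangles. -/
def Pack (S : Set (Var ι)) (k : ℕ) : Prop :=
  ∃ f : Fin k → Fin 3 → ι, (∀ j l j' l', f j l = f j' l' → j = j' ∧ l = l') ∧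
    ∀ j l l', l ≠ l' → red S (f j l) (f j l')

lemma pack_pred {N : ℕ} (τ : Fin N ≃ Var ι) (t m : ℕ) (h : Pack (pre τ (t + 1)) (m + 1)) :
    Pack (pre τ t) m := by
  classical
  obtain ⟨f, hf1, hf2⟩ := h
  -- the triangle containing the new edge
  obtain ⟨j0, hj0⟩ : ∃ j0 : Fin (m + 1), ∀ j, j ≠ j0 → ∀ l l', l ≠ l' →
      red (pre τ t) (f j l) (f j l') := by
    by_cases hex : ∃ j l l', l ≠ l' ∧ ¬ red (pre τ t) (f j l) (f j l')
    · obtain ⟨j0, l0, l0', hl0, hn0⟩ := hex
      refine ⟨j0, fun j hj l l' hll => ?_⟩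
      by_contra hn
      obtain ⟨v0, hv0, he0⟩ := hf2 j0 l0 l0' hl0
      obtain ⟨v, hv, he⟩ := hf2 j l l' hll
      have h0 : (τ.symm v0).val = t := by
        have h1 : (τ.symm v0).val < t + 1 := hv0
        by_contra h2
        exact hn0 ⟨v0, show (τ.symm v0).val < t by omega, he0⟩
      have h1 : (τ.symm v).val = t := by
        have h1 : (τ.symm v).val < t + 1 := hv
        by_contra h2
        exact hn ⟨v, show (τ.symm v).val < t by omega, he⟩
      have h2 : v = v0 := τ.symm.injective (Fin.ext (h1.trans h0.symm))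
      subst h2
      rcases he0 with ⟨h3, h4⟩ | ⟨h3, h4⟩ <;> rcases he with ⟨h5, h6⟩ | ⟨h5, h6⟩
      · exact hj (hf1 _ _ _ _ (h5.symm.trans h3)).1
      · exact hj (hf1 _ _ _ _ (h5.symm.trans h3)).1
      · exact hj (hf1 _ _ _ _ (h5.symm.trans h3)).1
      · exact hj (hf1 _ _ _ _ (h5.symm.trans h3)).1
    · push Not at hex
      exact ⟨0, fun j _ l l' hll => hex j l l' hll⟩
  refine ⟨fun j => f (j0.succAbove j), ?_, ?_⟩
  · intro j l j' l' h
    obtain ⟨h1, h2⟩ := hf1 _ _ _ _ h
    exact ⟨Fin.succAbove_right_injective h1, h2⟩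
  · intro j l l' hll
    exact hj0 _ (Fin.succAbove_ne j0 j) l l' hll

/-- For every order of the edges there is a prefix such that there are `k` red and `k` blue
triangles, all disjoint and avoiding a further point. -/
lemma exists_cut [Fintype ι] {N : ℕ} (τ : Fin N ≃ Var ι) (k : ℕ)
    (hk : 6 * k + 4 ≤ Fintype.card ι) : ∃ (t : ℕ) (c : ι) (f f' : Fin k → Fin 3 → ι),
      (∀ j l j' l', f j l = f j' l' → j = j' ∧ l = l') ∧
      (∀ j l j' l', f' j l = f' j' l' → j = j' ∧ l = l') ∧
      (∀ j l j' l', f j l ≠ f' j' l') ∧ (∀ j l, f j l ≠ c) ∧ (∀ j l, f' j l ≠ c) ∧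
      (∀ j l l', l ≠ l' → red (pre τ t) (f j l) (f j l')) ∧
      (∀ j l l', l ≠ l' → ¬ red (pre τ t) (f' j l) (f' j l')) := by
  classical
  -- a full packing at the end
  have hN : Pack (pre τ N) k := by
    have hc : Fintype.card (Fin k × Fin 3) ≤ Fintype.card ι := by
      rw [Fintype.card_prod, Fintype.card_fin, Fintype.card_fin]
      omega
    obtain ⟨φ⟩ := Function.Embedding.nonempty_of_card_le hc
    refine ⟨fun j l => φ (j, l), ?_, ?_⟩
    · intro j l j' l' h
      have := φ.injective h
      exact ⟨congrArg Prod.fst this, congrArg Prod.snd this⟩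
    · intro j l l' hll
      have hne : φ (j, l) ≠ φ (j, l') := by
        intro h
        exact hll (congrArg Prod.snd (φ.injective h))
      rcases lt_or_gt_of_ne hne with h | h
      · exact ⟨⟨(φ (j, l), φ (j, l')), h⟩, (τ.symm _).isLt, Or.inl ⟨rfl, rfl⟩⟩
      · exact ⟨⟨(φ (j, l'), φ (j, l)), h⟩, (τ.symm _).isLt, Or.inr ⟨rfl, rfl⟩⟩
  have hex : ∃ t, Pack (pre τ t) k := ⟨N, hN⟩
  let t := Nat.find hex
  have ht : Pack (pre τ t) k := Nat.find_spec hex
  have hmin : ∀ s, s < t → ¬ Pack (pre τ s) k := fun s hs => Nat.find_min hex hs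
  -- no further disjoint triangle
  have hnext : ¬ Pack (pre τ t) (k + 1) := by
    intro h
    rcases Nat.eq_zero_or_pos t with h0 | h0
    · rw [h0] at h
      obtain ⟨f, -, hf2⟩ := h
      obtain ⟨v, hv, -⟩ := hf2 0 0 1 (by decide)
      exact absurd hv (Nat.not_lt_zero _)
    · obtain ⟨s, hs⟩ := Nat.exists_eq_succ_of_ne_zero h0.ne'
      rw [hs] at h
      exact hmin s (by omega) (pack_pred τ s k h)
  obtain ⟨f, hf1, hf2⟩ := ht
  let U : Finset ι := Finset.univ.image (fun x : Fin k × Fin 3 => f x.1 x.2)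
  have hU : U.card = 3 * k := by
    rw [Finset.card_image_of_injective, Finset.card_univ, Fintype.card_prod, Fintype.card_fin,
      Fintype.card_fin, mul_comm]
    intro x y hxy
    obtain ⟨h1, h2⟩ := hf1 _ _ _ _ hxy
    exact Prod.ext h1 h2
  have hUc : Uᶜ.card = Fintype.card ι - 3 * k := by
    rw [Finset.card_compl, hU]
  obtain ⟨c, hc⟩ : Uᶜ.Nonempty := Finset.card_pos.1 (by omega)
  have hmemU : ∀ j l, f j l ∈ U := fun j l =>
    Finset.mem_image.2 ⟨(j, l), Finset.mem_univ _, rfl⟩
  obtain ⟨f', hf1', hf2', hf3'⟩ := exists_blue_pack (pre τ t) k (Uᶜ.erase c) (by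
    rw [Finset.card_erase_of_mem hc, hUc]
    omega) (by
    intro x hx y hy z hz hxy hyz hxz
    apply hnext
    have hx' := Finset.mem_compl.1 (Finset.mem_of_mem_erase hx)
    have hy' := Finset.mem_compl.1 (Finset.mem_of_mem_erase hy)
    have hz' := Finset.mem_compl.1 (Finset.mem_of_mem_erase hz)
    have hne : ∀ {x y : ι}, red (pre τ t) x y → x ≠ y := by
      rintro x y ⟨v, -, hv⟩ rfl
      rcases hv with ⟨h1, h2⟩ | ⟨h1, h2⟩
      · exact absurd (h1.trans h2.symm) v.2.ne
      · exact absurd (h1.trans h2.symm) v.2.ne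
    have hxyz : ∀ l : Fin 3, ∀ j l', (![x, y, z] : Fin 3 → ι) l ≠ f j l' := by
      intro l j l' h
      fin_cases l
      · exact hx' (by rw [show x = f j l' from h]; exact hmemU j l')
      · exact hy' (by rw [show y = f j l' from h]; exact hmemU j l')
      · exact hz' (by rw [show z = f j l' from h]; exact hmemU j l')
    refine ⟨Fin.cons ![x, y, z] f, ?_, ?_⟩
    · intro j l j' l'
      refine Fin.cases ?_ (fun j => ?_) j <;> refine Fin.cases ?_ (fun j' => ?_) j'
      · intro h
        rw [Fin.cons_zero] at h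
        refine ⟨rfl, ?_⟩
        fin_cases l <;> fin_cases l' <;> simp at h ⊢
        · exact hne hxy h
        · exact hne hxz h
        · exact hne hxy h.symm
        · exact hne hyz h
        · exact hne hxz h.symm
        · exact hne hyz h.symm
      · intro h
        rw [Fin.cons_zero, Fin.cons_succ] at h
        exact (hxyz l j' l' h).elim
      · intro h
        rw [Fin.cons_zero, Fin.cons_succ] at h
        exact (hxyz l' j l h.symm).elim
      · intro h
        rw [Fin.cons_succ, Fin.cons_succ] at h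
        obtain ⟨h4, h5⟩ := hf1 _ _ _ _ h
        exact ⟨by rw [h4], h5⟩
    · intro j l l' hll
      refine Fin.cases ?_ (fun j => ?_) j
      · rw [Fin.cons_zero]
        fin_cases l <;> fin_cases l' <;> simp at hll ⊢
        · exact hxy
        · exact hxz
        · exact red_symm hxy
        · exact hyz
        · exact red_symm hxz
        · exact red_symm hyz
      · rw [Fin.cons_succ]
        exact hf2 j l l' hll)
  refine ⟨t, c, f, f', hf1, hf1', ?_, ?_, ?_, hf2, hf3'⟩
  · intro j l j' l' h
    exact Finset.mem_compl.1 (Finset.mem_of_mem_erase (hf2' j' l')) (h ▸ hmemU j l)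
  · intro j l h
    exact Finset.mem_compl.1 hc (h ▸ hmemU j l)
  · intro j l
    exact Finset.ne_of_mem_erase (hf2' j l)

end triangles

end Pool.Agent.H47.Den
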