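import Mathlib

/-! # Denominators of factorisations of the generic alternating matrix

Step 1: if `f • A = B * C` for the generic alternating matrix `A` of order `n`, with inner dimension
smaller than `n`, then `f` vanishes at every alternating matrix which factors through dimension
`n - 3`. -/

namespace Pool.Agent.H47.Den

open Matrix

section defs

variable (F : Type*) [Field F] (ι : Type*) [LinearOrder ι]

/-- The variables `x_{ij}`, `i < j`. -/
abbrev Var : Type _ := {p : ι × ι // p.1 < p.2}

/-- The generic alternating matrix: entry `x_{ij}` above the diagonal, `-x_{ji}` below it and `0` on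
the diagonal. -/
noncomputable def genAlt : Matrix ι ι (MvPolynomial (Var ι) F) := fun i j =>
  if h : i < j then MvPolynomial.X ⟨(i, j), h⟩
  else if h : j < i then -MvPolynomial.X ⟨(j, i), h⟩
  else 0

end defs

variable {F : Type*} [Field F] {ι : Type*} [LinearOrder ι]

/-- Alternating matrices over a commutative ring. -/
def Alt {S : Type*} [CommRing S] (a : Matrix ι ι S) : Prop :=
  (∀ i, a i i = 0) ∧ ∀ i j, a j i = -a i j

/-- Evaluation of polynomials in the entries at an alternating matrix. -/
noncomputable def ev (F : Type*) [Field F] {S : Type*} [CommRing S] [Algebra F S]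
    (a : Matrix ι ι S) : MvPolynomial (Var ι) F →ₐ[F] S :=
  MvPolynomial.aeval (fun p : Var ι => a p.1.1 p.1.2)

lemma ev_X {S : Type*} [CommRing S] [Algebra F S] (a : Matrix ι ι S) (p : Var ι) :
    ev F a (MvPolynomial.X p) = a p.1.1 p.1.2 := by simp [ev]

lemma ev_genAlt {S : Type*} [CommRing S] [Algebra F S] {a : Matrix ι ι S} (ha : Alt a) :
    (genAlt F ι).map (ev F a) = a := by
  ext i j
  simp only [Matrix.map_apply, genAlt]
  split_ifs with h1 h2
  · rw [ev_X]
  · rw [map_neg, ev_X, ← ha.2]
  · have : i = j := le_antisymm (not_lt.1 h2) (not_lt.1 h1)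
    subst this
    rw [map_zero, ha.1]

lemma ev_comp {S T : Type*} [CommRing S] [Algebra F S] [CommRing T] [Algebra F T]
    (φ : S →ₐ[F] T) (a : Matrix ι ι S) (g : MvPolynomial (Var ι) F) :
    φ (ev F a g) = ev F (a.map φ) g := by
  have : φ.comp (ev F a) = ev F (a.map φ) := by
    apply MvPolynomial.algHom_ext
    intro p
    simp [ev]
  exact DFunLike.congr_fun this g

section step1

variable {τ : Type*} [Fintype τ]

/-- First order expansion of the identity `f • A = B * C` at the alternating matrix `a`, in the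
direction `U`. -/
lemma first_order {K : Type*} [Field K] [Algebra F K]
    {f : MvPolynomial (Var ι) F} {B : Matrix ι τ (MvPolynomial (Var ι) F)}
    {C : Matrix τ ι (MvPolynomial (Var ι) F)} (h : f • genAlt F ι = B * C)
    {a U : Matrix ι ι K} (ha : Alt a) (hU : Alt U) :
    ∃ (f1 : K) (B1 : Matrix ι τ K) (C1 : Matrix τ ι K),
      ev F a f • U + f1 • a = B.map (ev F a) * C1 + B1 * C.map (ev F a) := by
  classical
  let D : Matrix ι ι (DualNumber K) := fun i j => TrivSqZeroExt.inl (a i j) + TrivSqZeroExt.inr (U i j)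
  have hD : Alt D := by
    constructor
    · intro i
      simp only [D, ha.1, hU.1]
      simp
    · intro i j
      simp only [D, ha.2 i j, hU.2 i j]
      ext <;> simp
  have hfst : ∀ g : MvPolynomial (Var ι) F, (ev F D g).fst = ev F a g := by
    intro g
    have h1 := ev_comp (F := F) ((TrivSqZeroExt.fstHom K K K).restrictScalars F) D g
    have h2 : D.map ((TrivSqZeroExt.fstHom K K K).restrictScalars F) = a := by
      ext i j
      rw [Matrix.map_apply]
      change (D i j).fst = a i j
      simp only [D, TrivSqZeroExt.fst_add, TrivSqZeroExt.fst_inl, TrivSqZeroExt.fst_inr, add_zero]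
    rw [h2] at h1
    exact h1
  have key : (ev F D f) • D = B.map (ev F D) * C.map (ev F D) := by
    have h1 := congrArg (fun M : Matrix ι ι (MvPolynomial (Var ι) F) => M.map (ev F D)) h
    rw [Matrix.map_mul] at h1
    rw [← h1]
    ext1 i j
    have h2 := congrFun (congrFun (ev_genAlt (F := F) hD) i) j
    simp only [Matrix.map_apply] at h2
    simp only [Matrix.smul_apply, Matrix.map_apply, smul_eq_mul, map_mul, h2]
  refine ⟨(ev F D f).snd, B.map (fun g => (ev F D g).snd), C.map (fun g => (ev F D g).snd), ?_⟩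
  ext i j
  have h1 := congrArg TrivSqZeroExt.snd (congrFun (congrFun key i) j)
  simp only [Matrix.smul_apply, smul_eq_mul, Matrix.mul_apply, Matrix.map_apply] at h1
  rw [TrivSqZeroExt.snd_mul, TrivSqZeroExt.snd_sum] at h1
  simp only [TrivSqZeroExt.snd_mul, hfst, D, TrivSqZeroExt.snd_add, TrivSqZeroExt.snd_inl,
    TrivSqZeroExt.snd_inr, TrivSqZeroExt.fst_add, TrivSqZeroExt.fst_inl, TrivSqZeroExt.fst_inr,
    zero_add, add_zero, smul_eq_mul, MulOpposite.smul_eq_mul_unop, MulOpposite.unop_op] at h1
  simp only [Matrix.add_apply, Matrix.smul_apply, smul_eq_mul, Matrix.mul_apply, Matrix.map_apply]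
  rw [← Finset.sum_add_distrib]
  rw [mul_comm _ (a i j)]
  convert h1 using 1
  · ring

/-- Zeroth order version. -/
lemma zeroth_order {K : Type*} [Field K] [Algebra F K]
    {f : MvPolynomial (Var ι) F} {B : Matrix ι τ (MvPolynomial (Var ι) F)}
    {C : Matrix τ ι (MvPolynomial (Var ι) F)} (h : f • genAlt F ι = B * C)
    {a : Matrix ι ι K} (ha : Alt a) :
    ev F a f • a = B.map (ev F a) * C.map (ev F a) := by
  have h1 := congrArg (fun M : Matrix ι ι (MvPolynomial (Var ι) F) => M.map (ev F a)) h
  rw [Matrix.map_mul] at h1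
  rw [← h1]
  ext1 i j
  have h2 := congrFun (congrFun (ev_genAlt (F := F) ha) i) j
  simp only [Matrix.map_apply] at h2
  simp only [Matrix.smul_apply, Matrix.map_apply, smul_eq_mul, map_mul, h2]

omit [LinearOrder ι] in
lemma mem_span_of_parallel {K : Type*} [Field K] {v w : ι → K} (hv : v ≠ 0)
    (h : ∀ i j, v i * w j = v j * w i) : w ∈ Submodule.span K {v} := by
  obtain ⟨i, hi⟩ := Function.ne_iff.1 hv
  rw [Submodule.mem_span_singleton]
  refine ⟨w i / v i, ?_⟩
  ext j
  have h1 := h i j
  simp only [Pi.zero_apply] at hi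
  simp only [Pi.smul_apply, smul_eq_mul]
  field_simp
  rw [h1]
  ring

omit [LinearOrder ι] in
lemma finrank_le_one_of_parallel {K : Type*} [Field K] {v : ι → K} (hv : v ≠ 0)
    (W : Submodule K (ι → K)) (h : ∀ w ∈ W, ∀ i j, v i * w j = v j * w i) :
    Module.finrank K W ≤ 1 := by
  have h1 : W ≤ Submodule.span K {v} := fun w hw => mem_span_of_parallel hv (h w hw)
  exact (Submodule.finrank_mono h1).trans (finrank_span_singleton hv).le

variable [Fintype ι]

/-- **Step 1**. The denominator `f` of a factorisation `f • A = B * C` through a dimension smaller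
than `n` vanishes at all alternating matrices that factor through dimension `n - 3`. -/
theorem ev_eq_zero {K : Type*} [Field K] [Algebra F K]
    {f : MvPolynomial (Var ι) F} {B : Matrix ι τ (MvPolynomial (Var ι) F)}
    {C : Matrix τ ι (MvPolynomial (Var ι) F)} (h : f • genAlt F ι = B * C)
    (hτ : Fintype.card τ < Fintype.card ι) {κ : Type*} [Fintype κ]
    (hκ : Fintype.card κ + 3 ≤ Fintype.card ι) (P : Matrix ι κ K) (Q : Matrix κ ι K)
    (ha : Alt (P * Q)) : ev F (P * Q) f = 0 := by
  classical
  by_contra hf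
  set a : Matrix ι ι K := P * Q with ha'
  set B0 : Matrix ι τ K := B.map (ev F a) with hB0
  set C0 : Matrix τ ι K := C.map (ev F a) with hC0
  have h0 : ev F a f • a = B0 * C0 := zeroth_order h ha
  set V : Submodule K (ι → K) := LinearMap.ker (B0ᵀ).mulVecLin with hV
  set W : Submodule K (ι → K) := LinearMap.ker C0.mulVecLin with hW
  have hVm : ∀ v ∈ V, v ᵥ* B0 = 0 := by
    intro v hv
    rw [hV, LinearMap.mem_ker, Matrix.mulVecLin_apply, Matrix.mulVec_transpose] at hv
    exact hv
  have hWm : ∀ w ∈ W, C0 *ᵥ w = 0 := by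
    intro w hw
    rw [hW, LinearMap.mem_ker, Matrix.mulVecLin_apply] at hw
    exact hw
  have hpar : ∀ v ∈ V, ∀ w ∈ W, ∀ i j, v i * w j = v j * w i := by
    intro v hv w hw i j
    have hv' := hVm v hv
    have hw' := hWm w hw
    have hvaw : v ⬝ᵥ (a *ᵥ w) = 0 := by
      have h1 : v ⬝ᵥ ((ev F a f • a) *ᵥ w) = 0 := by
        rw [h0, ← Matrix.mulVec_mulVec, hw', Matrix.mulVec_zero, dotProduct_zero]
      rw [Matrix.smul_mulVec, dotProduct_smul, smul_eq_mul] at h1
      exact (mul_eq_zero.1 h1).resolve_left hf
    let U : Matrix ι ι K := Matrix.single i j 1 - Matrix.single j i 1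
    have hU : Alt U := by
      constructor
      · intro l
        simp only [U, Matrix.sub_apply, Matrix.single_apply, sub_eq_zero]
        congr 1
        rw [and_comm]
      · intro l m
        simp only [U, Matrix.sub_apply, Matrix.single_apply, neg_sub]
        congr 2
        · rw [and_comm]
        · rw [and_comm]
    obtain ⟨f1, B1, C1, h1⟩ := first_order h ha hU
    have h2 : v ⬝ᵥ ((ev F a f • U + f1 • a) *ᵥ w) = 0 := by
      rw [h1, Matrix.add_mulVec, dotProduct_add, ← Matrix.mulVec_mulVec, ← Matrix.mulVec_mulVec,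
        hw', Matrix.mulVec_zero, dotProduct_zero, add_zero, Matrix.dotProduct_mulVec, hv',
        zero_dotProduct]
    rw [Matrix.add_mulVec, dotProduct_add, Matrix.smul_mulVec, Matrix.smul_mulVec,
      dotProduct_smul, dotProduct_smul, hvaw, smul_zero, add_zero, smul_eq_mul] at h2
    have h3 := (mul_eq_zero.1 h2).resolve_left hf
    have h4 : v ⬝ᵥ (U *ᵥ w) = v i * w j - v j * w i := by
      simp only [U, Matrix.sub_mulVec, dotProduct_sub]
      congr 1
      · simp [Matrix.single_mulVec, dotProduct, Function.update_apply]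
      · simp [Matrix.single_mulVec, dotProduct, Function.update_apply]
    rw [h4, sub_eq_zero] at h3
    exact h3
  -- dimensions
  have hdV : Module.finrank K V + B0.rank = Fintype.card ι := by
    have := LinearMap.finrank_range_add_finrank_ker (B0ᵀ).mulVecLin
    rw [Module.finrank_fintype_fun_eq_card] at this
    rw [← Matrix.rank_transpose B0, Matrix.rank, add_comm]
    exact this
  have hdB : Module.finrank K (LinearMap.ker B0.mulVecLin) + B0.rank = Fintype.card τ := by
    have := LinearMap.finrank_range_add_finrank_ker B0.mulVecLin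
    rw [Module.finrank_fintype_fun_eq_card] at this
    rw [Matrix.rank, add_comm]
    exact this
  have hdW : Module.finrank K W + C0.rank = Fintype.card ι := by
    have := LinearMap.finrank_range_add_finrank_ker C0.mulVecLin
    rw [Module.finrank_fintype_fun_eq_card] at this
    rw [Matrix.rank, add_comm]
    exact this
  have hrC : C0.rank ≤ Fintype.card τ := by
    exact Matrix.rank_le_card_height C0
  have hdQ : Module.finrank K (LinearMap.ker Q.mulVecLin) + Q.rank = Fintype.card ι := by
    have := LinearMap.finrank_range_add_finrank_ker Q.mulVecLin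
    rw [Module.finrank_fintype_fun_eq_card] at this
    rw [Matrix.rank, add_comm]
    exact this
  have hrQ : Q.rank ≤ Fintype.card κ := Matrix.rank_le_card_height Q
  -- the map from ker Q to ker B0
  have hmap : ∀ x ∈ LinearMap.ker Q.mulVecLin, C0.mulVecLin x ∈ LinearMap.ker B0.mulVecLin := by
    intro x hx
    rw [LinearMap.mem_ker, Matrix.mulVecLin_apply] at hx ⊢
    rw [Matrix.mulVecLin_apply, Matrix.mulVec_mulVec, ← h0, Matrix.smul_mulVec, ha',
      ← Matrix.mulVec_mulVec, hx, Matrix.mulVec_zero, smul_zero]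
  let T : LinearMap.ker Q.mulVecLin →ₗ[K] LinearMap.ker B0.mulVecLin :=
    C0.mulVecLin.restrict hmap
  have hT := LinearMap.finrank_range_add_finrank_ker T
  have hT1 : Module.finrank K (LinearMap.range T) ≤
      Module.finrank K (LinearMap.ker B0.mulVecLin) := Submodule.finrank_le _
  have hT2 : Module.finrank K (LinearMap.ker T) ≤ Module.finrank K W := by
    let S : LinearMap.ker T →ₗ[K] W :=
      LinearMap.codRestrict W ((Submodule.subtype _).comp (Submodule.subtype (LinearMap.ker T))) (by
        rintro ⟨x, hx⟩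
        rw [hW, LinearMap.mem_ker]
        rw [LinearMap.mem_ker] at hx
        exact congrArg Subtype.val hx)
    apply LinearMap.finrank_le_finrank_of_injective (f := S)
    intro x y hxy
    apply Subtype.ext
    apply Subtype.ext
    exact congrArg (fun z : W => (z : ι → K)) hxy
  have hV1 : 1 ≤ Module.finrank K V := by omega
  have hW1 : 1 ≤ Module.finrank K W := by omega
  have h4 : 4 ≤ Module.finrank K V + Module.finrank K W := by omega
  have hex : ∀ X : Submodule K (ι → K), 1 ≤ Module.finrank K X → ∃ x ∈ X, x ≠ 0 := by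
    intro X hX
    have : X ≠ ⊥ := by
      intro h
      rw [h, finrank_bot] at hX
      omega
    exact Submodule.exists_mem_ne_zero_of_ne_bot this
  obtain ⟨v, hv, hv0⟩ := hex V hV1
  obtain ⟨w, hw, hw0⟩ := hex W hW1
  have h5 := finrank_le_one_of_parallel hv0 W (fun w hw => hpar v hv w hw)
  have h6 := finrank_le_one_of_parallel hw0 V (fun v hv i j => by
    have := hpar v hv w hw j i
    rw [mul_comm (w i), mul_comm (w j), this])
  omega

end step1

section bivectors

/-- Sum of the bivectors `p l ∧ q l`. -/
def biv {κ S : Type*} [Fintype κ] [CommRing S] (p q : κ → ι → S) : Matrix ι ι S :=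
  fun i j => ∑ l, (p l i * q l j - q l i * p l j)

omit [LinearOrder ι] in
lemma biv_alt {κ S : Type*} [Fintype κ] [CommRing S] (p q : κ → ι → S) : Alt (biv p q) := by
  constructor
  · intro i
    apply Finset.sum_eq_zero
    intro l _
    ring
  · intro i j
    simp only [biv]
    rw [← Finset.sum_neg_distrib]
    apply Finset.sum_congr rfl
    intro l _
    ring

omit [LinearOrder ι] in
lemma biv_eq_mul {κ S : Type*} [Fintype κ] [CommRing S] (p q : κ → ι → S) :
    biv p q = (Matrix.of fun (i : ι) (l : κ ⊕ κ) => Sum.elim (fun l => p l i) (fun l => -q l i) l) *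
      (Matrix.of fun (l : κ ⊕ κ) (j : ι) => Sum.elim (fun l => q l j) (fun l => p l j) l) := by
  ext i j
  simp only [biv, Matrix.mul_apply, Matrix.of_apply, Fintype.sum_sum_type, Sum.elim_inl,
    Sum.elim_inr]
  rw [← Finset.sum_add_distrib]
  apply Finset.sum_congr rfl
  intro l _
  ring

omit [LinearOrder ι] in
lemma biv_map {κ S T : Type*} [Fintype κ] [CommRing S] [CommRing T] (φ : S →+* T)
    (p q : κ → ι → S) : (biv p q).map φ = biv (fun l i => φ (p l i)) (fun l i => φ (q l i)) := by
  ext i j
  simp [biv, map_sum]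

/-- The first half of the generic vectors. -/
noncomputable def pX (F : Type*) [Field F] (κ ι : Type*) :
    κ → ι → MvPolynomial ((κ ⊕ κ) × ι) F := fun l i => MvPolynomial.X (Sum.inl l, i)

/-- The second half of the generic vectors. -/
noncomputable def qX (F : Type*) [Field F] (κ ι : Type*) :
    κ → ι → MvPolynomial ((κ ⊕ κ) × ι) F := fun l i => MvPolynomial.X (Sum.inr l, i)

/-- `g` vanishes at all sums of `κ` bivectors. -/
def Van (κ : Type*) [Fintype κ] (g : MvPolynomial (Var ι) F) : Prop :=
  ev F (biv (pX F κ ι) (qX F κ ι)) g = 0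

lemma Van.ev_biv {κ : Type*} [Fintype κ] {g : MvPolynomial (Var ι) F} (h : Van κ g)
    {S : Type*} [CommRing S] [Algebra F S] (p q : κ → ι → S) : ev F (biv p q) g = 0 := by
  let φ : MvPolynomial ((κ ⊕ κ) × ι) F →ₐ[F] S :=
    MvPolynomial.aeval (fun x => Sum.elim (fun l => p l x.2) (fun l => q l x.2) x.1)
  have h1 := ev_comp φ (biv (pX F κ ι) (qX F κ ι)) g
  rw [show ev F (biv (pX F κ ι) (qX F κ ι)) g = 0 from h, map_zero] at h1
  have h2 : (biv (pX F κ ι) (qX F κ ι)).map φ = biv p q := by
    ext i j
    simp [biv, pX, qX, φ, map_sum]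
  rw [h2] at h1
  exact h1.symm

lemma Van.exists_factor {κ : Type*} [Fintype κ] {α : Type*} {s : Finset α}
    {g : α → MvPolynomial (Var ι) F} (h : Van κ (∏ l ∈ s, g l)) : ∃ l ∈ s, Van κ (g l) := by
  unfold Van at h
  rw [map_prod, Finset.prod_eq_zero_iff] at h
  exact h

theorem van_of_factorisation [Fintype ι] {τ : Type*} [Fintype τ] {f : MvPolynomial (Var ι) F}
    {B : Matrix ι τ (MvPolynomial (Var ι) F)} {C : Matrix τ ι (MvPolynomial (Var ι) F)}
    (h : f • genAlt F ι = B * C) (hτ : Fintype.card τ < Fintype.card ι) {κ : Type*} [Fintype κ]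
    (hκ : 2 * Fintype.card κ + 3 ≤ Fintype.card ι) : Van κ f := by
  unfold Van
  let S := MvPolynomial ((κ ⊕ κ) × ι) F
  let K := FractionRing S
  let φ : S →ₐ[F] K := IsScalarTower.toAlgHom F S K
  have hφ : Function.Injective φ := IsFractionRing.injective S K
  apply hφ
  rw [map_zero, ev_comp]
  have h1 : (biv (pX F κ ι) (qX F κ ι)).map φ =
      biv (fun l i => φ (pX F κ ι l i)) (fun l i => φ (qX F κ ι l i)) := by
    ext i j
    simp [biv, map_sum]
  rw [h1, biv_eq_mul]
  apply ev_eq_zero h hτ
  · rw [Fintype.card_sum]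
    omega
  · rw [← biv_eq_mul]
    exact biv_alt _ _

end bivectors

end Pool.Agent.H47.Den
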